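import Pool.Agent.H94R5.TA.Spec

/-! Task A1 (helper439): operators commuting with `T`. -/

set_option autoImplicit false
open scoped ENNReal Topology
open MeasureTheory Filter

noncomputable section
namespace H94T

namespace TaskA1

theorem comm (T A : H →L[ℂ] H) (s : ℤ) (a : G → ℤ → ℂ) (φ : G → G)
    (hφ : MeasurePreserving φ mu mu)
    (hT : ∀ f : H, ∀ᵐ x ∂mu, ∀ n : ℤ,
      ((T f : G → E) x) n = (w (d x) (n - 1) : ℂ) * ((f : G → E) x) (n - 1))
    (hA : ∀ f : H, ∀ᵐ x ∂mu, ∀ n : ℤ,
      ((A f : G → E) x) n = a x n * ((f : G → E) (φ x)) (n - s))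
    (hc : ∀ x (n : ℤ), a x n * (w (d (φ x)) (n - s - 1) : ℂ) =
      (w (d x) (n - 1) : ℂ) * a x (n - 1)) : A.comp T = T.comp A := by
  ext f : 1
  apply Lp.ext
  have h1 := hA (T f)
  have h2 := hφ.quasiMeasurePreserving.ae (hT f)
  have h3 := hT (A f)
  have h4 := hA f
  filter_upwards [h1, h2, h3, h4] with x e1 e2 e3 e4
  ext n
  show ((A (T f) : G → E) x) n = ((T (A f) : G → E) x) n
  rw [e1, e2, e3, e4, ← mul_assoc, hc, mul_assoc]
  have : n - s - 1 = n - 1 - s := by ring
  rw [this]

theorem inf_p (x : G) : (setOf (p x)).Infinite := by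
  apply Set.infinite_of_injective_forall_mem (f := fun k : ℕ => 5 * k + 2)
  · intro a b h
    simp only at h
    omega
  · intro k
    exact Or.inr (by omega)

theorem inf_np (x : G) : {i | ¬ p x i}.Infinite := by
  apply Set.infinite_of_injective_forall_mem (f := fun k : ℕ => 5 * k + 1)
  · intro a b h
    simp only at h
    omega
  · intro k
    rintro (⟨h, -⟩ | h)
    · omega
    · omega

theorem p_iff (j : ℕ) (x x' : G) (hx : x j = 1) (hx' : x' j = 0) (h : ∀ k, k ≠ j → x' k = x k) :
    p x (5 * j) ∧ ∀ i, p x' i ↔ (p x i ∧ i ≠ 5 * j) := by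
  constructor
  · refine Or.inl ⟨by omega, ?_⟩
    have : 5 * j / 5 = j := by omega
    rw [this, hx]
  · intro i
    by_cases hi : i = 5 * j
    · subst hi
      constructor
      · rintro (⟨-, h1⟩ | h1)
        · have : 5 * j / 5 = j := by omega
          rw [this, hx'] at h1
          exact absurd h1 (by decide)
        · omega
      · rintro ⟨-, h1⟩
        exact absurd rfl h1
    · by_cases h5 : i % 5 = 0
      · have hne : i / 5 ≠ j := by omega
        unfold p
        rw [h _ hne]
        constructor
        · intro h1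
          exact ⟨h1, hi⟩
        · rintro ⟨h1, -⟩
          exact h1
      · constructor
        · rintro (⟨h1, -⟩ | h1)
          · exact absurd h1 h5
          · exact ⟨Or.inr h1, hi⟩
        · rintro ⟨⟨h1, -⟩ | h1, -⟩
          · exact absurd h1 h5
          · exact Or.inr h1

theorem g_self (j : ℕ) (x : G) : g j x j = x j + 1 := by
  simp [g]

theorem g_ne (j : ℕ) (x : G) (k : ℕ) (hk : k ≠ j) : g j x k = x k := by
  simp [g, hk]

theorem col (h2 : S_COL2) (j : ℕ) (x x' : G) (hx : x j = 1) (hx' : x' j = 0)
    (h : ∀ k, k ≠ j → x' k = x k) (n : ℤ) :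
    min (d x n) (c (5 * j)) - d x n = min (d x (n - 1)) (c (5 * j)) - d x' (n - 1) :=
  h2 (p x) (p x') (5 * j) (inf_p x') (inf_np x) (p_iff j x x' hx hx' h).1
    (p_iff j x x' hx hx' h).2 n

theorem c_pos (i : ℕ) : 0 < c i := by
  unfold c
  positivity

end TaskA1

open TaskA1

theorem A1 (hOP : S_OP) (hG : S_GRP1) (h1 : S_COL1) (h2 : S_COL2) (h3 : S_COL3) : S_A1 := by
  have hid : MeasurePreserving (id : G → G) mu mu := MeasurePreserving.id mu
  have hdpos : ∀ x n, 0 < d x n := fun x n => lt_of_lt_of_le (by norm_num) ((h1 x).pos n)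
  -- the operator `T`
  obtain ⟨T, hT⟩ := hOP 1 (fun x n => (w (d x) (n - 1) : ℂ)) 1 (fun n => by
      unfold w
      exact Complex.measurable_ofReal.comp (Real.measurable_exp.comp (h3 (n - 1)).neg))
    (fun x n => by
      rw [Complex.norm_real, Real.norm_eq_abs]
      unfold w
      rw [abs_of_pos (Real.exp_pos _), Real.exp_le_one_iff]
      have := hdpos x (n - 1)
      linarith) id hid
  have hT' : ∀ f : H, ∀ᵐ x ∂mu, ∀ n : ℤ,
      ((T f : G → E) x) n = (w (d x) (n - 1) : ℂ) * ((f : G → E) x) (n - 1) := hT
  have hdig : ∀ (j : ℕ) (b : ZMod 2), MeasurableSet {x : G | x j = b} := by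
    intro j b
    have h1 : Measurable (fun x : G => x j) := measurable_pi_apply j
    exact h1 (MeasurableSet.of_discrete (s := {b}))
  have hz : ∀ b : ZMod 2, b + 1 + 1 = b := by decide
  refine ⟨T, hT', ?_, ?_, ?_⟩
  · intro D hD
    classical
    obtain ⟨A, hA⟩ := hOP 0 (fun x _ => if x ∈ D then 1 else 0) 1 (fun n =>
      Measurable.ite hD measurable_const measurable_const) (fun x n => by
        by_cases hx : x ∈ D <;> simp [hx]) id hid
    refine ⟨A, comm T A 0 _ id hid hT' hA (fun x n => ?_), ?_⟩
    · simp only [id, sub_zero]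
      ring
    · intro f
      filter_upwards [hA f] with x hx
      ext n
      rw [hx n]
      by_cases hxD : x ∈ D
      · simp [hxD]
      · simp [hxD]
  · intro j
    obtain ⟨A, hA⟩ := hOP (-1) (fun x n =>
      if x j = 0 then (Real.exp (min (d (g j x) n) (c (5 * j))) : ℂ) else 0)
      (Real.exp (c (5 * j))) (fun n => by
        refine Measurable.ite (hdig j 0) ?_ measurable_const
        exact Complex.measurable_ofReal.comp (Real.measurable_exp.comp
          (((h3 n).comp (hG j).measurable).min measurable_const)))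
      (fun x n => by
        by_cases hx : x j = 0
        · simp only [hx, if_true]
          rw [Complex.norm_real, Real.norm_eq_abs, abs_of_pos (Real.exp_pos _), Real.exp_le_exp]
          exact min_le_right _ _
        · simp only [hx, if_false, norm_zero]
          exact (Real.exp_pos _).le) (g j) (hG j)
    have hA' : ∀ f : H, ∀ᵐ x ∂mu, ∀ n : ℤ, ((A f : G → E) x) n =
      (if x j = 0 then (Real.exp (min (d (g j x) n) (c (5 * j))) : ℂ) else 0) *
        ((f : G → E) (g j x)) (n + 1) := by
      intro f
      filter_upwards [hA f] with x hx n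
      rw [hx n, sub_neg_eq_add]
    refine ⟨A, comm T A (-1) _ (g j) (hG j) hT' hA (fun x n => ?_), hA'⟩
    have e1 : n - -1 - 1 = n := by ring
    rw [e1]
    by_cases hx : x j = 0
    · simp only [hx, if_true]
      have hx' : g j x j = 1 := by rw [g_self, hx, zero_add]
      have key := col h2 j (g j x) x hx' hx (fun k hk => (g_ne j x k hk).symm) n
      unfold w
      rw [← Complex.ofReal_mul, ← Complex.ofReal_mul, ← Real.exp_add, ← Real.exp_add]
      congr 2
      linarith
    · simp only [hx, if_false]
      ring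
  · intro j
    obtain ⟨A, hA⟩ := hOP 1 (fun x n =>
      if x j = 1 then (Real.exp (-(min (d x (n - 1)) (c (5 * j)))) : ℂ) else 0) 1 (fun n => by
        refine Measurable.ite (hdig j 1) ?_ measurable_const
        exact Complex.measurable_ofReal.comp (Real.measurable_exp.comp
          ((h3 (n - 1)).min measurable_const).neg))
      (fun x n => by
        by_cases hx : x j = 1
        · simp only [hx, if_true]
          rw [Complex.norm_real, Real.norm_eq_abs, abs_of_pos (Real.exp_pos _),
            Real.exp_le_one_iff]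
          have : 0 < min (d x (n - 1)) (c (5 * j)) := lt_min (hdpos _ _) (c_pos _)
          linarith
        · simp only [hx, if_false, norm_zero]
          norm_num) (g j) (hG j)
    refine ⟨A, comm T A 1 _ (g j) (hG j) hT' hA (fun x n => ?_), hA⟩
    by_cases hx : x j = 1
    · simp only [hx, if_true]
      have hx' : g j x j = 0 := by
        rw [g_self, hx]
        decide
      have key := col h2 j x (g j x) hx hx' (fun k hk => g_ne j x k hk) (n - 1)
      unfold w
      rw [← Complex.ofReal_mul, ← Complex.ofReal_mul, ← Real.exp_add, ← Real.exp_add]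
      congr 2
      linarith
    · simp only [hx, if_false]
      ring

end H94T
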