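import Pool.Agent.H94R5.TA.Spec

set_option autoImplicit false

namespace H94T

namespace COL1aux

theorem p2 (x : G) (j r : ℕ) (h2 : 2 ≤ r) (h5 : r < 5) : p x (5 * j + r) := by
  right
  omega

theorem p1 (x : G) (j : ℕ) : ¬ p x (5 * j + 1) := by
  unfold p
  omega

open Classical in
theorem cnt (x : G) (j : ℕ) : 3 * j ≤ Nat.count (p x) (5 * j) := by
  induction j with
  | zero => simp
  | succ j ih =>
    have e : 5 * (j + 1) = 5 * j + 1 + 1 + 1 + 1 + 1 := by ring
    rw [e, Nat.count_succ, Nat.count_succ, Nat.count_succ, if_pos (p2 x j 2 le_rfl (by norm_num)),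
      if_pos (p2 x j 3 (by norm_num) (by norm_num)), if_pos (p2 x j 4 (by norm_num) (by norm_num))]
    have h1 : Nat.count (p x) (5 * j) ≤ Nat.count (p x) (5 * j + 2) :=
      Nat.count_monotone _ (by omega)
    have h2 : Nat.count (p x) (5 * j + 1 + 1) = Nat.count (p x) (5 * j + 2) := rfl
    omega

open Classical in
theorem cntn (x : G) (j : ℕ) : Nat.count (fun i => ¬ p x i) (5 * j) ≤ 2 * j := by
  induction j with
  | zero => simp
  | succ j ih =>
    have e : 5 * (j + 1) = 5 * j + 1 + 1 + 1 + 1 + 1 := by ring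
    rw [e, Nat.count_succ, Nat.count_succ, Nat.count_succ,
      if_neg (not_not.2 (p2 x j 2 le_rfl (by norm_num))),
      if_neg (not_not.2 (p2 x j 3 (by norm_num) (by norm_num))),
      if_neg (not_not.2 (p2 x j 4 (by norm_num) (by norm_num))), Nat.count_succ, Nat.count_succ]
    split_ifs <;> omega

theorem inf (x : G) : (Set.ofPred (p x)).Infinite := by
  apply Set.infinite_of_injective_forall_mem (f := fun j : ℕ => 5 * j + 2)
  · intro a b h
    simp only at h
    omega
  · intro j
    exact p2 x j 2 le_rfl (by norm_num)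

theorem infn (x : G) : (Set.ofPred (fun i => ¬ p x i)).Infinite := by
  apply Set.infinite_of_injective_forall_mem (f := fun j : ℕ => 5 * j + 1)
  · intro a b h
    simp only at h
    omega
  · intro j
    exact p1 x j

theorem c_mono {i j : ℕ} (h : i ≤ j) : c i ≤ c j := by
  unfold c
  exact pow_le_pow_right₀ (by norm_num) (by omega)

theorem c_step {i j : ℕ} (h : i < j) : 8 * c i ≤ c j := by
  have h1 := c_mono (Nat.succ_le_of_lt h)
  refine le_trans (le_of_eq ?_) h1
  unfold c
  rw [Nat.succ_eq_add_one, pow_succ 8 (i + 1)]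
  ring

theorem c_pos (i : ℕ) : 8 ≤ c i := by
  unfold c
  calc (8 : ℝ) = 8 ^ 1 := by norm_num
    _ ≤ 8 ^ (i + 1) := pow_le_pow_right₀ (by norm_num) (by omega)

theorem d_nn (x : G) (n : ℤ) (h : 0 ≤ n) : d x n = c (Nat.nth (p x) n.toNat) := by
  unfold d dd
  rw [if_pos h]

theorem d_neg (x : G) (n : ℤ) (h : n ≤ -1) :
    d x n = c (Nat.nth (fun i => ¬ p x i) (-1 - n).toNat) := by
  unfold d dd
  rw [if_neg (by omega)]

end COL1aux

open COL1aux in
theorem COL1 : S_COL1 := by
  classical
  intro x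
  refine ⟨?_, ?_, ?_, ?_⟩
  · intro n
    by_cases h : 0 ≤ n
    · rw [d_nn x n h]; exact c_pos _
    · rw [d_neg x n (by omega)]; exact c_pos _
  · intro n h
    rw [d_nn x n h, d_nn x (n + 1) (by omega)]
    apply c_step
    have e : (n + 1).toNat = n.toNat + 1 := by omega
    rw [e]
    exact Nat.nth_strictMono (inf x) (Nat.lt_succ_self _)
  · intro n h
    rw [d_neg x n h, d_neg x (n - 1) (by omega)]
    apply c_step
    have e : (-1 - (n - 1)).toNat = (-1 - n).toNat + 1 := by omega
    rw [e]
    exact Nat.nth_strictMono (infn x) (Nat.lt_succ_self _)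
  · intro q
    refine ⟨3 * q + 20, by omega, fun k hk => ?_⟩
    rw [d_nn x k (by omega), d_neg x ((q : ℤ) - k) (by omega)]
    apply c_mono
    have e1 : ((k : ℤ)).toNat = k := by omega
    have e2 : (-1 - ((q : ℤ) - k)).toNat = k - q - 1 := by omega
    rw [e1, e2]
    have h1 : Nat.nth (p x) k < 5 * (k / 3 + 1) := by
      apply Nat.nth_lt_of_lt_count
      have := cnt x (k / 3 + 1)
      omega
    have h2 : 5 * ((k - q - 1) / 2) ≤ Nat.nth (fun i => ¬ p x i) (k - q - 1) := by
      rw [← Nat.count_le_iff_le_nth (infn x)]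
      have := cntn x ((k - q - 1) / 2)
      omega
    omega

end H94T
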