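import Pool.Agent.H94R5.TA.Spec

set_option autoImplicit false
open scoped ENNReal Topology
open MeasureTheory Filter

noncomputable section
namespace H94T

theorem COL3_nth (Q : G → ℕ → Prop) (hQ : ∀ i, MeasurableSet {x | Q x i})
    (hinf : ∀ x, (setOf (Q x)).Infinite) (n : ℕ) : Measurable fun x : G => Nat.nth (Q x) n := by
  classical
  have hcount : ∀ i, Measurable fun x : G => Nat.count (Q x) i := by
    intro i
    have h1 : (fun x : G => Nat.count (Q x) i) =
        fun x => ∑ j ∈ Finset.range i, (if Q x j then 1 else 0) := by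
      funext x
      rw [Nat.count_eq_card_filter_range, Finset.card_filter]
    rw [h1]
    refine Finset.measurable_sum _ (fun j _ => ?_)
    exact Measurable.ite (hQ j) measurable_const measurable_const
  refine measurable_to_countable' (fun i => ?_)
  have h2 : (fun x : G => Nat.nth (Q x) n) ⁻¹' {i} = {x | Q x i} ∩ {x | Nat.count (Q x) i = n} := by
    ext x
    simp only [Set.mem_preimage, Set.mem_singleton_iff, Set.mem_inter_iff, Set.mem_setOf_eq]
    constructor
    · intro h
      subst h
      exact ⟨Nat.nth_mem_of_infinite (hinf x) n, Nat.count_nth_of_infinite (hinf x) n⟩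
    · rintro ⟨h, h'⟩
      subst h'
      exact Nat.nth_count h
  rw [h2]
  exact (hQ i).inter ((hcount i) (measurableSet_singleton n))

theorem COL3_p (i : ℕ) : MeasurableSet {x : G | p x i} := by
  have h1 : {x : G | p x i} = ({x : G | i % 5 = 0} ∩ {x : G | x (i / 5) = 1}) ∪ {x : G | 2 ≤ i % 5} := by
    ext x
    simp [p]
  rw [h1]
  have hm : Measurable (fun x : G => x (i / 5)) := measurable_pi_apply (i / 5)
  have h2 : MeasurableSet {x : G | x (i / 5) = 1} :=
    hm (measurableSet_singleton (1 : ZMod 2))
  exact ((MeasurableSet.const _).inter h2).union (MeasurableSet.const _)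

theorem COL3_inf (x : G) : (setOf (p x)).Infinite := by
  rw [Set.infinite_iff_exists_gt]
  intro a
  refine ⟨5 * (a + 1) + 2, Or.inr (by omega), by omega⟩

theorem COL3_inf' (x : G) : (setOf (fun i => ¬ p x i)).Infinite := by
  rw [Set.infinite_iff_exists_gt]
  intro a
  refine ⟨5 * (a + 1) + 1, ?_, by omega⟩
  intro h
  rcases h with ⟨h, _⟩ | h <;> omega

theorem COL3 : S_COL3 := by
  intro n
  unfold d dd
  by_cases hn : 0 ≤ n
  · simp only [hn, if_true]
    exact (measurable_of_countable c).comp (COL3_nth p COL3_p COL3_inf n.toNat)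
  · simp only [hn, if_false]
    exact (measurable_of_countable c).comp
      (COL3_nth (fun x i => ¬ p x i) (fun i => (COL3_p i).compl) COL3_inf' (-1 - n).toNat)

end H94T
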