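import Mathlib

set_option autoImplicit false
open scoped ENNReal
open MeasureTheory

noncomputable section
namespace H94T

/-- the column space `ℓ²(ℤ)` -/
abbrev E : Type := lp (fun _ : ℤ => ℂ) 2

/-- the standard basis of `ℓ²(ℤ)` -/
def e (n : ℤ) : E := lp.single 2 n (1 : ℂ)

theorem e_apply (n m : ℤ) : (e n) m = if m = n then 1 else 0 := by
  classical
  unfold e
  rw [lp.single_apply]
  by_cases h : m = n
  · subst h; simp
  · simp [h]

/-- the compact group `(ℤ/2)^ℕ` -/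
abbrev G : Type := ℕ → ZMod 2

/-- its normalised Haar measure -/
def mu : Measure G := Measure.addHaarMeasure (⊤ : TopologicalSpace.PositiveCompacts G)

instance : (mu).IsAddHaarMeasure := by unfold mu; infer_instance

instance : IsProbabilityMeasure mu := by
  constructor
  have := Measure.addHaarMeasure_self (K₀ := (⊤ : TopologicalSpace.PositiveCompacts G))
  simpa [mu] using this

/-- flip of the digit `j` -/
def g (j : ℕ) (x : G) : G := x + Pi.single j 1

/-- the Hilbert space `L²(G; ℓ²(ℤ))` -/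
abbrev H : Type := Lp E 2 mu

/-- scales on the right hand side of column `x` -/
def p (x : G) (i : ℕ) : Prop := (i % 5 = 0 ∧ x (i / 5) = 1) ∨ 2 ≤ i % 5

def c (i : ℕ) : ℝ := 8 ^ (i + 1)

/-- increments: `n ≥ 0` the `n`-th scale in `P`; `n = -1-m` the `m`-th scale not in `P`. -/
def dd (P : ℕ → Prop) (n : ℤ) : ℝ := by
  classical
  exact if 0 ≤ n then c (Nat.nth P n.toNat) else c (Nat.nth (fun i => ¬ P i) (-1 - n).toNat)

def d (x : G) : ℤ → ℝ := dd (p x)

/-- weights -/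
def w (d : ℤ → ℝ) (n : ℤ) : ℝ := Real.exp (-(d n))

/-- steepness of a column -/
structure Steep (d : ℤ → ℝ) : Prop where
  pos : ∀ n, 8 ≤ d n
  right : ∀ n : ℤ, 0 ≤ n → 8 * d n ≤ d (n + 1)
  left : ∀ n : ℤ, n ≤ -1 → 8 * d n ≤ d (n - 1)
  imb : ∀ q : ℕ, ∃ K : ℕ, q + 1 ≤ K ∧ ∀ k : ℕ, K ≤ k → d k ≤ d ((q : ℤ) - k)

/-- invariance of a subspace of `ℓ²(ℤ)` under the weighted shift `e_n ↦ w(n) e_{n+1}` -/
def Inv (d : ℤ → ℝ) (W : Submodule ℂ E) : Prop :=
  ∀ f ∈ W, ∀ f' : E, (∀ n : ℤ, f' n = (w d (n - 1) : ℂ) * f (n - 1)) → f' ∈ W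

/-- the recursion satisfied by `y = ∑ ζ^m T^m f` -/
def Rec (d : ℤ → ℝ) (f : E) (ζ : ℂ) (y : E) : Prop :=
  ∀ n : ℤ, y n = f n + ζ * (w d (n - 1) : ℂ) * y (n - 1)

/-- coefficients of the power series `ζ ↦ (∑ ζ^m T^m f) n` -/
def coef (d : ℤ → ℝ) (f : E) (n : ℤ) (m : ℕ) : ℂ :=
  (∏ i ∈ Finset.range m, (w d (n - 1 - i) : ℂ)) * f (n - m)

theorem res_mem (S : Set ℤ) (y : E) : Memℓp (fun n => S.indicator (fun n => (y n : ℂ)) n) 2 := by
  classical
  have h := lp.memℓp y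
  rw [memℓp_gen_iff (by norm_num)] at h ⊢
  refine Summable.of_nonneg_of_le (fun n => by positivity) (fun n => ?_) h
  by_cases hn : n ∈ S
  · simp [hn]
  · simp [hn]

/-- restriction of a sequence to a set of indices -/
def res (S : Set ℤ) (y : E) : E := ⟨fun n => S.indicator (fun n => (y n : ℂ)) n, res_mem S y⟩

theorem res_apply (S : Set ℤ) (y : E) (n : ℤ) :
    (res S y) n = S.indicator (fun n => (y n : ℂ)) n := rfl

end H94T
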