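import Pool.Agent.H94R5.TA.Spec

/-! Task F1 (helper485): the vector `y = ∑ ζ^m T^m f`. -/

set_option autoImplicit false
open scoped ENNReal Topology
open MeasureTheory Filter

noncomputable section
namespace H94T

namespace F1x

theorem w_pos (d : ℤ → ℝ) (n : ℤ) : 0 < w d n := Real.exp_pos _

theorem w_le {d : ℤ → ℝ} (hd : Steep d) (n : ℤ) : w d n ≤ 1 := by
  unfold w
  rw [Real.exp_le_one_iff]
  have := hd.pos n
  linarith

theorem d_right {d : ℤ → ℝ} (hd : Steep d) (n : ℕ) : (n : ℝ) ≤ d n := by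
  induction n with
  | zero =>
    have := hd.pos 0
    simp only [Nat.cast_zero, Int.natCast_zero] at *
    linarith
  | succ n ih =>
    have h1 := hd.right n (Int.natCast_nonneg n)
    have h2 := hd.pos n
    push_cast
    linarith

theorem d_left {d : ℤ → ℝ} (hd : Steep d) (n : ℕ) : (n : ℝ) ≤ d (-1 - n) := by
  induction n with
  | zero =>
    have := hd.pos (-1)
    simp only [Nat.cast_zero, sub_zero] at *
    linarith
  | succ n ih =>
    have h1 := hd.left (-1 - n) (by omega)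
    have h2 := hd.pos (-1 - n)
    have e : (-1 - (n : ℤ) - 1) = -1 - ((n + 1 : ℕ) : ℤ) := by push_cast; ring
    rw [e] at h1
    push_cast at h1 ⊢
    linarith

theorem d_big {d : ℤ → ℝ} (hd : Steep d) (N : ℕ) (n : ℤ) (hn : N < n.natAbs) : (N : ℝ) ≤ d n := by
  rcases le_or_gt 0 n with h | h
  · have h1 := d_right hd n.toNat
    have e : ((n.toNat : ℕ) : ℤ) = n := Int.toNat_of_nonneg h
    rw [e] at h1
    have h2 : N ≤ n.toNat := by omega
    have h3 : (N : ℝ) ≤ n.toNat := by exact_mod_cast h2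
    linarith
  · have h1 := d_left hd (-1 - n).toNat
    have e : (((-1 - n).toNat : ℕ) : ℤ) = -1 - n := Int.toNat_of_nonneg (by omega)
    rw [e, show -1 - (-1 - n) = n by ring] at h1
    have h2 : N ≤ (-1 - n).toNat := by omega
    have h3 : (N : ℝ) ≤ ((-1 - n).toNat : ℕ) := by exact_mod_cast h2
    linarith

theorem small {d : ℤ → ℝ} (hd : Steep d) (r : ℝ) (N : ℕ) (hr : 0 ≤ r) (hN : 2 * r ≤ N)
    (n : ℤ) (hn : N < n.natAbs) : r * w d n ≤ 1 / 2 := by
  have h1 := d_big hd N n hn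
  have h2 : (N : ℝ) + 1 ≤ Real.exp (d n) := by
    have := Real.add_one_le_exp (d n)
    linarith
  unfold w
  rw [Real.exp_neg, ← div_eq_mul_inv, div_le_div_iff₀ (Real.exp_pos _) (by norm_num)]
  linarith

theorem prod_bd {d : ℤ → ℝ} (hd : Steep d) (r : ℝ) (N : ℕ) (hr : 0 ≤ r) (hN : 2 * r ≤ N)
    (m : ℕ) (n : ℤ) : r ^ m * ∏ i ∈ Finset.range m, w d (n - 1 - i) ≤
      (1 / 2) ^ m * (2 * max 1 r) ^ (2 * N + 1) := by
  have hA : 1 ≤ 2 * max 1 r := by
    have := le_max_left 1 r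
    linarith
  have h1 : r ^ m * ∏ i ∈ Finset.range m, w d (n - 1 - i) =
      ∏ i ∈ Finset.range m, (r * w d (n - 1 - i)) := by
    rw [Finset.prod_mul_distrib, Finset.prod_const, Finset.card_range]
  have h2 : ∏ i ∈ Finset.range m, (r * w d (n - 1 - i)) ≤
      ∏ i ∈ Finset.range m, (1 / 2 * (if (n - 1 - (i : ℤ)).natAbs ≤ N then 2 * max 1 r else 1)) := by
    apply Finset.prod_le_prod
    · intro i _
      exact mul_nonneg hr (w_pos d _).le
    · intro i _
      split_ifs with h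
      · have h3 := w_le hd (n - 1 - i)
        have h4 := le_max_right 1 r
        have h5 := w_pos d (n - 1 - i)
        nlinarith
      · have := small hd r N hr hN (n - 1 - i) (not_le.1 h)
        linarith
  have h3 : ∏ i ∈ Finset.range m,
      (1 / 2 * (if (n - 1 - (i : ℤ)).natAbs ≤ N then 2 * max 1 r else 1) : ℝ) =
      (1 / 2) ^ m * (2 * max 1 r) ^
        ((Finset.range m).filter (fun i : ℕ => (n - 1 - (i : ℤ)).natAbs ≤ N)).card := by
    rw [Finset.prod_mul_distrib, Finset.prod_const, Finset.card_range, Finset.prod_ite,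
      Finset.prod_const, Finset.prod_const_one, mul_one]
  have h4 : ((Finset.range m).filter (fun i : ℕ => (n - 1 - (i : ℤ)).natAbs ≤ N)).card ≤
      2 * N + 1 := by
    have h5 : ((Finset.range m).filter (fun i : ℕ => (n - 1 - (i : ℤ)).natAbs ≤ N)).card ≤
        (Finset.Icc (-(N : ℤ)) N).card := by
      apply Finset.card_le_card_of_injOn (fun i : ℕ => n - 1 - (i : ℤ))
      · intro i hi
        simp only [Finset.coe_filter, Finset.mem_range, Set.mem_ofPred_eq] at hi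
        simp only [Finset.coe_Icc, Set.mem_Icc]
        omega
      · intro i _ j _ hij
        have : n - 1 - (i : ℤ) = n - 1 - (j : ℤ) := hij
        omega
    rw [Int.card_Icc] at h5
    omega
  rw [h1]
  refine h2.trans ?_
  rw [h3]
  exact mul_le_mul_of_nonneg_left (pow_le_pow_right₀ hA h4) (by positivity)

theorem two_pos' : (0 : ℝ) < (2 : ℝ≥0∞).toReal := by norm_num

theorem sh_mem {d : ℤ → ℝ} (hd : Steep d) (f : E) :
    Memℓp (fun n : ℤ => (w d (n - 1) : ℂ) * f (n - 1)) 2 := by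
  have h := lp.memℓp f
  rw [memℓp_gen_iff (by norm_num)] at h ⊢
  have h' := (Equiv.subRight (1 : ℤ)).summable_iff.2 h
  refine Summable.of_nonneg_of_le (fun n => by positivity) (fun n => ?_) h'
  show ‖(w d (n - 1) : ℂ) * f (n - 1)‖ ^ _ ≤ ‖f (n - 1)‖ ^ _
  apply Real.rpow_le_rpow (norm_nonneg _) _ (by norm_num)
  rw [norm_mul, Complex.norm_real, Real.norm_of_nonneg (w_pos d _).le]
  have := w_le hd (n - 1)
  have h0 := norm_nonneg (f (n - 1))
  nlinarith

/-- the weighted shift -/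
def sh {d : ℤ → ℝ} (hd : Steep d) (f : E) : E :=
  ⟨fun n : ℤ => (w d (n - 1) : ℂ) * f (n - 1), sh_mem hd f⟩

/-- its powers -/
def v {d : ℤ → ℝ} (hd : Steep d) (f : E) : ℕ → E
  | 0 => f
  | m + 1 => sh hd (v hd f m)

theorem coef_succ (d : ℤ → ℝ) (f : E) (n : ℤ) (m : ℕ) :
    coef d f n (m + 1) = (w d (n - 1) : ℂ) * coef d f (n - 1) m := by
  unfold coef
  rw [Finset.prod_range_succ']
  have e1 : ∀ i : ℕ, (n - 1 - ((i + 1 : ℕ) : ℤ)) = n - 1 - 1 - (i : ℤ) := by
    intro i; push_cast; ring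
  have e2 : (n - ((m + 1 : ℕ) : ℤ)) = n - 1 - (m : ℤ) := by push_cast; ring
  simp only [e1, e2, Nat.cast_zero, sub_zero]
  ring

theorem v_apply {d : ℤ → ℝ} (hd : Steep d) (f : E) (m : ℕ) : ∀ n : ℤ, (v hd f m) n = coef d f n m := by
  induction m with
  | zero =>
    intro n
    unfold coef
    simp [v]
  | succ m ih =>
    intro n
    rw [coef_succ, ← ih]
    rfl

theorem norm_bd {d : ℤ → ℝ} (hd : Steep d) (f : E) (ζ : ℂ) (N : ℕ) (hN : 2 * ‖ζ‖ ≤ N) (m : ℕ) :
    ‖ζ ^ m • v hd f m‖ ≤ (1 / 2) ^ m * ((2 * max 1 ‖ζ‖) ^ (2 * N + 1) * ‖f‖) := by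
  set B : ℝ := (1 / 2) ^ m * (2 * max 1 ‖ζ‖) ^ (2 * N + 1) with hB
  have hB0 : 0 ≤ B := by
    have := le_max_left 1 ‖ζ‖
    positivity
  have h1 := lp.hasSum_norm two_pos' f
  have h2 := (Equiv.subRight (m : ℤ)).hasSum_iff.2 h1
  have h3 := h2.mul_left (B ^ (2 : ℝ≥0∞).toReal)
  have h4 := lp.hasSum_norm two_pos' (ζ ^ m • v hd f m)
  have h5 : ‖ζ ^ m • v hd f m‖ ^ (2 : ℝ≥0∞).toReal ≤
      B ^ (2 : ℝ≥0∞).toReal * ‖f‖ ^ (2 : ℝ≥0∞).toReal := by
    refine hasSum_le (fun n => ?_) h4 h3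
    show ‖(ζ ^ m • v hd f m) n‖ ^ _ ≤ B ^ _ * ‖f (n - m)‖ ^ _
    rw [← Real.mul_rpow hB0 (norm_nonneg _)]
    apply Real.rpow_le_rpow (norm_nonneg _) _ (by norm_num)
    have e1 : (ζ ^ m • v hd f m) n = ζ ^ m * coef d f n m := by
      rw [← v_apply hd f m n]
      rfl
    rw [e1, norm_mul, norm_pow]
    unfold coef
    rw [norm_mul, ← mul_assoc]
    apply mul_le_mul_of_nonneg_right _ (norm_nonneg _)
    have e2 : ‖∏ i ∈ Finset.range m, (w d (n - 1 - i) : ℂ)‖ =
        ∏ i ∈ Finset.range m, w d (n - 1 - i) := by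
      rw [norm_prod]
      apply Finset.prod_congr rfl
      intro i _
      rw [Complex.norm_real, Real.norm_of_nonneg (w_pos d _).le]
    rw [e2]
    exact prod_bd hd ‖ζ‖ N (norm_nonneg _) hN m n
  rw [← Real.mul_rpow hB0 (norm_nonneg _),
    Real.rpow_le_rpow_iff (norm_nonneg _) (mul_nonneg hB0 (norm_nonneg _)) two_pos'] at h5
  rw [← mul_assoc]
  exact h5

end F1x

open F1x in
theorem F1 : S_F1 := by
  intro d hd f ζ
  set N : ℕ := ⌈2 * ‖ζ‖⌉₊ with hN
  have hN2 : 2 * ‖ζ‖ ≤ N := Nat.le_ceil _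
  have hsum : Summable (fun m => ζ ^ m • v hd f m) := by
    refine Summable.of_norm_bounded
      (g := fun m : ℕ => (1 / 2 : ℝ) ^ m * ((2 * max 1 ‖ζ‖) ^ (2 * N + 1) * ‖f‖)) ?_
      (norm_bd hd f ζ N hN2)
    exact (summable_geometric_two).mul_right _
  obtain ⟨y, hy⟩ := hsum
  have hyn : ∀ n : ℤ, HasSum (fun m : ℕ => ζ ^ m * coef d f n m) (y n) := by
    intro n
    have h1 := (lp.evalCLM ℂ (fun _ : ℤ => ℂ) 2 n).hasSum hy
    have h2 : (fun m : ℕ => ζ ^ m * coef d f n m) =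
        fun m => (lp.evalCLM ℂ (fun _ : ℤ => ℂ) 2 n) (ζ ^ m • v hd f m) := by
      funext m
      rw [← v_apply hd f m n]
      rfl
    rw [h2]
    exact h1
  refine ⟨y, ?_, hyn, ?_⟩
  · intro n
    have h1 := (hasSum_nat_add_iff' 1).2 (hyn n)
    have h2 := (hyn (n - 1)).mul_left (ζ * (w d (n - 1) : ℂ))
    have e : (fun m : ℕ => ζ ^ (m + 1) * coef d f n (m + 1)) =
        fun m : ℕ => ζ * (w d (n - 1) : ℂ) * (ζ ^ m * coef d f (n - 1) m) := by
      funext m
      rw [coef_succ]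
      ring
    rw [e] at h1
    have h3 := h1.unique h2
    have h4 : ∑ i ∈ Finset.range 1, ζ ^ i * coef d f n i = f n := by
      rw [Finset.sum_range_one, pow_zero, one_mul, ← v_apply hd f 0 n]
      rfl
    rw [h4] at h3
    linear_combination h3
  · intro W hW hInv hf
    have hv : ∀ m, v hd f m ∈ W := by
      intro m
      induction m with
      | zero => exact hf
      | succ m ih => exact hInv _ ih _ (fun n => rfl)
    refine hW.mem_of_tendsto hy (Eventually.of_forall fun s => ?_)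
    exact W.sum_mem fun m _ => W.smul_mem _ (hv m)

end H94T
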