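import Pool.Agent.H94R5.TA.Spec

set_option autoImplicit false
open scoped ENNReal Topology
open MeasureTheory Filter

noncomputable section
namespace H94T

theorem F1s_d (d : ℤ → ℝ) (hd : Steep d) (k : ℕ) : (k : ℝ) ≤ d (-1 - (k : ℤ)) := by
  induction k with
  | zero => have := hd.pos (-1 - ((0 : ℕ) : ℤ)); push_cast at *; linarith
  | succ k ih =>
    have h1 := hd.left (-1 - (k : ℤ)) (by omega)
    have h2 : (-1 - (k : ℤ)) - 1 = -1 - ((k + 1 : ℕ) : ℤ) := by push_cast; ring
    rw [h2] at h1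
    have h3 := hd.pos (-1 - (k : ℤ))
    push_cast at *
    linarith

theorem F1s_tendsto (d : ℤ → ℝ) (hd : Steep d) (n : ℤ) :
    Tendsto (fun m : ℕ => d (n - 1 - (m : ℤ))) atTop atTop := by
  have h1 : Tendsto (fun m : ℕ => (m : ℝ) - (n : ℝ)) atTop atTop :=
    tendsto_atTop_add_const_right _ _ tendsto_natCast_atTop_atTop
  refine tendsto_atTop_mono' atTop ?_ h1
  filter_upwards [eventually_ge_atTop n.toNat] with m hm
  have h2 : n ≤ m := by omega
  have h3 := F1s_d d hd ((m : ℤ) - n).toNat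
  have h4 : ((((m : ℤ) - n).toNat : ℕ) : ℤ) = (m : ℤ) - n := Int.toNat_of_nonneg (by omega)
  have h5 : -1 - ((((m : ℤ) - n).toNat : ℕ) : ℤ) = n - 1 - (m : ℤ) := by rw [h4]; ring
  rw [h5] at h3
  have h6 : ((((m : ℤ) - n).toNat : ℕ) : ℝ) = (m : ℝ) - (n : ℝ) := by
    have := congrArg (fun z : ℤ => (z : ℝ)) h4
    push_cast at this
    exact this
  rw [h6] at h3
  exact h3

theorem F1s : S_F1s := by
  intro d hd f n r hr
  have hmain : Summable (fun m : ℕ => r ^ m * ∏ i ∈ Finset.range m, w d (n - 1 - i)) := by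
    have ht : Tendsto (fun m : ℕ => r * w d (n - 1 - (m : ℤ))) atTop (𝓝 (r * 0)) := by
      refine Tendsto.const_mul _ ?_
      unfold w
      exact Real.tendsto_exp_neg_atTop_nhds_zero.comp (F1s_tendsto d hd n)
    rw [mul_zero] at ht
    refine summable_of_ratio_norm_eventually_le (r := 1 / 2) (by norm_num) ?_
    have hev : ∀ᶠ m : ℕ in atTop, r * w d (n - 1 - (m : ℤ)) < 1 / 2 :=
      ht.eventually (gt_mem_nhds (by norm_num))
    filter_upwards [hev] with m hm
    have hw : ∀ k, 0 < w d k := fun k => Real.exp_pos _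
    have h0 : 0 ≤ r ^ m * ∏ i ∈ Finset.range m, w d (n - 1 - i) :=
      mul_nonneg (pow_nonneg hr m) (Finset.prod_nonneg fun i _ => (hw _).le)
    rw [Finset.prod_range_succ, pow_succ]
    have h1 : r ^ m * r * ((∏ i ∈ Finset.range m, w d (n - 1 - i)) * w d (n - 1 - (m : ℤ))) =
        (r * w d (n - 1 - (m : ℤ))) * (r ^ m * ∏ i ∈ Finset.range m, w d (n - 1 - i)) := by ring
    rw [h1, norm_mul]
    refine mul_le_mul_of_nonneg_right ?_ (norm_nonneg _)
    rw [Real.norm_eq_abs, abs_of_nonneg (mul_nonneg hr (hw _).le)]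
    exact hm.le
  refine Summable.of_nonneg_of_le (fun m => mul_nonneg (pow_nonneg hr m) (norm_nonneg _))
    (fun m => ?_) (hmain.mul_right ‖f‖)
  have h1 : ‖coef d f n m‖ ≤ (∏ i ∈ Finset.range m, w d (n - 1 - i)) * ‖f‖ := by
    unfold coef
    rw [norm_mul, norm_prod]
    have h2 : ∏ i ∈ Finset.range m, ‖((w d (n - 1 - (i : ℤ)) : ℝ) : ℂ)‖ =
        ∏ i ∈ Finset.range m, w d (n - 1 - i) := by
      refine Finset.prod_congr rfl (fun i _ => ?_)
      rw [Complex.norm_real, Real.norm_eq_abs]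
      exact abs_of_pos (Real.exp_pos _)
    rw [h2]
    refine mul_le_mul_of_nonneg_left ?_ (Finset.prod_nonneg fun i _ => (Real.exp_pos _).le)
    exact lp.norm_apply_le_norm (by norm_num) f _
  calc r ^ m * ‖coef d f n m‖ ≤ r ^ m * ((∏ i ∈ Finset.range m, w d (n - 1 - i)) * ‖f‖) :=
        mul_le_mul_of_nonneg_left h1 (pow_nonneg hr m)
    _ = _ := by ring

end H94T
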