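import Pool.Agent.H94R5.TA.Spec

set_option autoImplicit false
open scoped ENNReal Topology
open MeasureTheory Filter

noncomputable section
namespace H94T

theorem F3B_sum {d : ℤ → ℝ} (h : Steep d) (k : ℕ) :
    ∑ i ∈ Finset.range k, d ((k : ℤ) - 1 - i) ≤ d k / 7 := by
  induction k with
  | zero =>
    have := h.pos 0
    simp only [Finset.range_zero, Finset.sum_empty, Nat.cast_zero]
    linarith
  | succ k ih =>
    rw [Finset.sum_range_succ']
    have e : ∀ i : ℕ, (((k + 1 : ℕ) : ℤ) - 1 - ((i + 1 : ℕ) : ℤ)) = (k : ℤ) - 1 - i := by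
      intro i
      push_cast
      ring
    have e2 : (((k + 1 : ℕ) : ℤ) - 1 - ((0 : ℕ) : ℤ)) = (k : ℤ) := by
      push_cast
      ring
    simp only [e, e2]
    have h1 := h.right k (by positivity)
    push_cast
    linarith

theorem F3B : S_F3B := by
  intro d h f q hf
  refine ⟨‖f q‖ * Real.exp (-∑ i ∈ Finset.range q.natAbs, d (-1 - (i : ℤ))),
    mul_pos (norm_pos_iff.2 hf) (Real.exp_pos _), fun k hk => ?_⟩
  obtain ⟨m, hm⟩ : ∃ m, m = ((k : ℤ) - q).toNat := ⟨_, rfl⟩
  have hm' : (m : ℤ) = k - q := by omega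
  rw [← hm]
  have e1 : ‖coef d f k m‖ = Real.exp (-∑ i ∈ Finset.range m, d ((k : ℤ) - 1 - i)) * ‖f q‖ := by
    unfold coef
    rw [norm_mul, norm_prod]
    have e2 : (k : ℤ) - m = q := by omega
    rw [e2, ← Finset.sum_neg_distrib, Real.exp_sum]
    congr 1
    apply Finset.prod_congr rfl
    intro i _
    rw [Complex.norm_real]
    exact Real.norm_of_nonneg (Real.exp_pos _).le
  have hpos : ∀ n, 0 ≤ d n := fun n => by
    have := h.pos n
    linarith
  have h1 : ∑ i ∈ Finset.range m, d ((k : ℤ) - 1 - i) ≤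
      d k / 2 + ∑ i ∈ Finset.range q.natAbs, d (-1 - (i : ℤ)) := by
    calc ∑ i ∈ Finset.range m, d ((k : ℤ) - 1 - i)
        ≤ ∑ i ∈ Finset.range (k + q.natAbs), d ((k : ℤ) - 1 - i) := by
          apply Finset.sum_le_sum_of_subset_of_nonneg
          · intro i hi
            rw [Finset.mem_range] at hi ⊢
            omega
          · intro i _ _
            exact hpos _
      _ = ∑ i ∈ Finset.range k, d ((k : ℤ) - 1 - i) +
          ∑ i ∈ Finset.range q.natAbs, d ((k : ℤ) - 1 - ((k + i : ℕ) : ℤ)) := by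
          rw [Finset.sum_range_add]
      _ = ∑ i ∈ Finset.range k, d ((k : ℤ) - 1 - i) +
          ∑ i ∈ Finset.range q.natAbs, d (-1 - (i : ℤ)) := by
          congr 1
          apply Finset.sum_congr rfl
          intro i _
          congr 1
          push_cast
          ring
      _ ≤ _ := by
          have := F3B_sum h k
          have := hpos k
          linarith
  rw [e1, ← Real.exp_nat_mul]
  have e3 : ‖f q‖ * Real.exp (-∑ i ∈ Finset.range q.natAbs, d (-1 - (i : ℤ))) *
      Real.exp (((k : ℝ) - |(q : ℝ)| - 1) * (d k / 2)) =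
      Real.exp (-(∑ i ∈ Finset.range q.natAbs, d (-1 - (i : ℤ))) +
        ((k : ℝ) - |(q : ℝ)| - 1) * (d k / 2)) * ‖f q‖ := by
    rw [Real.exp_add]
    ring
  rw [e3, ← mul_assoc, ← Real.exp_add]
  apply mul_le_mul_of_nonneg_right _ (norm_nonneg _)
  apply Real.exp_le_exp.2
  have e4 : (m : ℝ) = (k : ℝ) - (q : ℝ) := by
    exact_mod_cast hm'
  have h2 : (k : ℝ) - |(q : ℝ)| ≤ m := by
    rw [e4]
    have := le_abs_self (q : ℝ)
    linarith
  have h3 : 0 ≤ d k / 2 := by
    have := hpos k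
    linarith
  have h4 := mul_le_mul_of_nonneg_right h2 h3
  linarith

end H94T
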