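import Pool.Agent.H94R5.TA.Spec

set_option autoImplicit false
open scoped ENNReal Topology
open MeasureTheory Filter

noncomputable section
namespace H94T

theorem f3d_lower {d : ℤ → ℝ} (hd : Steep d) (k : ℕ) : 8 * (7 * (k : ℝ) + 1) ≤ d (k : ℤ) := by
  induction k with
  | zero =>
    have := hd.pos 0
    simpa using this
  | succ k ih =>
    have h1 := hd.right (k : ℤ) (by positivity)
    have h2 : (0 : ℝ) ≤ k := Nat.cast_nonneg k
    push_cast
    linarith

theorem F3D : S_F3D := by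
  intro d hd C
  set r : ℝ := 2 * Real.exp (-7) with hr
  have hr0 : 0 < r := by positivity
  have hr1 : r < 1 := by
    have h1 : Real.exp (-7) ≤ Real.exp (-1) := Real.exp_le_exp.mpr (by norm_num)
    have h2 : Real.exp (-1) < 1 / 2 := by
      rw [Real.exp_neg, one_div]
      apply inv_strictAnti₀ (by norm_num)
      have := Real.exp_one_gt_d9
      linarith
    rw [hr]
    linarith
  have h1 : Tendsto (fun n : ℕ => (n : ℝ) ^ 2 * r ^ n) atTop (𝓝 0) :=
    tendsto_pow_const_mul_const_pow_of_abs_lt_one 2 (by rw [abs_of_pos hr0]; exact hr1)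
  have h2 : Tendsto (fun k : ℕ => (C / r) * (((k + 1 : ℕ) : ℝ) ^ 2 * r ^ (k + 1))) atTop
      (𝓝 ((C / r) * 0)) := ((tendsto_add_atTop_iff_nat 1).mpr h1).const_mul _
  rw [mul_zero] at h2
  have h3 := h2.eventually (gt_mem_nhds (show (0 : ℝ) < 1 / 4 by norm_num))
  obtain ⟨K, hK⟩ := eventually_atTop.mp h3
  refine ⟨K, ?_⟩
  intro k hk
  have h4 := hK k hk
  have e1 : (C / r) * (((k + 1 : ℕ) : ℝ) ^ 2 * r ^ (k + 1)) = C * ((k : ℝ) + 1) ^ 2 * r ^ k := by
    push_cast
    field_simp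
    ring
  rw [e1] at h4
  have h5 : Real.exp (-(d (k : ℤ)) / 8) ≤ (Real.exp (-7)) ^ k := by
    rw [← Real.exp_nat_mul]
    apply Real.exp_le_exp.mpr
    have := f3d_lower hd k
    linarith
  have h6 : r ^ k = 2 ^ k * (Real.exp (-7)) ^ k := by rw [hr, mul_pow]
  rw [h6] at h4
  have h2k : (0 : ℝ) < 2 ^ k := by positivity
  have h7 : ((1 : ℝ) / 2) ^ (k + 2) * 2 ^ k = 1 / 4 := by
    rw [pow_add, mul_right_comm, ← mul_pow]
    norm_num
  rcases le_total 0 C with hC | hC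
  · have h8 : C * ((k : ℝ) + 1) ^ 2 * Real.exp (-(d (k : ℤ)) / 8) ≤
        C * ((k : ℝ) + 1) ^ 2 * (Real.exp (-7)) ^ k :=
      mul_le_mul_of_nonneg_left h5 (by positivity)
    refine h8.trans ?_
    have h9 : (C * ((k : ℝ) + 1) ^ 2 * (Real.exp (-7)) ^ k) * 2 ^ k ≤
        (1 / 2) ^ (k + 2) * 2 ^ k := by
      rw [h7]
      have : C * ((k : ℝ) + 1) ^ 2 * (2 ^ k * (Real.exp (-7)) ^ k) =
        (C * ((k : ℝ) + 1) ^ 2 * (Real.exp (-7)) ^ k) * 2 ^ k := by ring
      rw [← this]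
      exact h4.le
    exact le_of_mul_le_mul_right h9 h2k
  · have h8 : C * ((k : ℝ) + 1) ^ 2 * Real.exp (-(d (k : ℤ)) / 8) ≤ 0 := by
      apply mul_nonpos_of_nonpos_of_nonneg _ (Real.exp_pos _).le
      exact mul_nonpos_of_nonpos_of_nonneg hC (by positivity)
    exact h8.trans (by positivity)

end H94T
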