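import Pool.Agent.H94R5.TA.Spec

set_option autoImplicit false
open scoped ENNReal Topology
open MeasureTheory Filter

noncomputable section
namespace H94T

theorem F3E_mono_right {d : ℤ → ℝ} (hd : Steep d) (a : ℤ) (ha : 0 ≤ a) (j : ℕ) :
    d a ≤ d (a + j) := by
  induction j with
  | zero => simp
  | succ j ih =>
    have h1 := hd.right (a + j) (by positivity)
    have h2 := hd.pos (a + j)
    have h3 : a + ((j + 1 : ℕ) : ℤ) = a + j + 1 := by push_cast; ring
    rw [h3]
    linarith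

theorem F3E_mono_left {d : ℤ → ℝ} (hd : Steep d) (a : ℤ) (ha : a ≤ -1) (j : ℕ) :
    d a ≤ d (a - j) := by
  induction j with
  | zero => simp
  | succ j ih =>
    have h1 := hd.left (a - j) (by have : (0:ℤ) ≤ j := by positivity
                                   linarith)
    have h2 := hd.pos (a - j)
    have h3 : a - ((j + 1 : ℕ) : ℤ) = a - j - 1 := by push_cast; ring
    rw [h3]
    linarith

theorem F3E_mono_right' {d : ℤ → ℝ} (hd : Steep d) (a n : ℤ) (ha : 0 ≤ a) (h : a ≤ n) :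
    d a ≤ d n := by
  have h1 := F3E_mono_right hd a ha (n - a).toNat
  have h2 : a + ((n - a).toNat : ℤ) = n := by
    rw [Int.toNat_of_nonneg (by linarith)]; ring
  rwa [h2] at h1

theorem F3E_mono_left' {d : ℤ → ℝ} (hd : Steep d) (a n : ℤ) (ha : a ≤ -1) (h : n ≤ a) :
    d a ≤ d n := by
  have h1 := F3E_mono_left hd a ha (a - n).toNat
  have h2 : a - ((a - n).toNat : ℤ) = n := by
    rw [Int.toNat_of_nonneg (by linarith)]; ring
  rwa [h2] at h1

theorem F3E_norm_e (n : ℤ) : ‖e n‖ = 1 := by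
  unfold e
  rw [lp.norm_single (by norm_num)]
  simp

theorem F3E_res_insert (s : Finset ℤ) (a : ℤ) (ha : a ∉ s) (y : E) :
    res (((insert a s : Finset ℤ)) : Set ℤ) y = (y a) • e a + res (s : Set ℤ) y := by
  classical
  apply Subtype.ext
  funext m
  change (res (((insert a s : Finset ℤ)) : Set ℤ) y) m = (y a) * (e a) m + (res (s : Set ℤ) y) m
  rw [res_apply, res_apply, e_apply]
  by_cases h : m = a
  · subst h
    have h1 : m ∈ (((insert m s : Finset ℤ)) : Set ℤ) := by simp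
    have h2 : m ∉ (s : Set ℤ) := by simpa using ha
    rw [Set.indicator_of_mem h1, Set.indicator_of_notMem h2]
    simp
  · by_cases h3 : m ∈ s
    · have h1 : m ∈ (((insert a s : Finset ℤ)) : Set ℤ) := by simp [h3]
      have h2 : m ∈ (s : Set ℤ) := by simpa using h3
      rw [Set.indicator_of_mem h1, Set.indicator_of_mem h2]
      simp [h]
    · have h1 : m ∉ (((insert a s : Finset ℤ)) : Set ℤ) := by simp [h3, h]
      have h2 : m ∉ (s : Set ℤ) := by simpa using h3
      rw [Set.indicator_of_notMem h1, Set.indicator_of_notMem h2]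
      simp [h]

theorem F3E_res_finset (s : Finset ℤ) (y : E) :
    ‖res (s : Set ℤ) y‖ ≤ ∑ n ∈ s, ‖y n‖ := by
  classical
  induction s using Finset.induction_on with
  | empty =>
    have : res ((∅ : Finset ℤ) : Set ℤ) y = 0 := by
      apply Subtype.ext
      funext m
      change (res ((∅ : Finset ℤ) : Set ℤ) y) m = 0
      rw [res_apply]
      simp
    rw [this]
    simp
  | insert a s ha ih =>
    rw [F3E_res_insert s a ha, Finset.sum_insert ha]
    refine (norm_add_le _ _).trans ?_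
    rw [norm_smul, F3E_norm_e, mul_one]
    linarith

theorem F3E_decomp (y : E) (b k : ℤ) (hb : b ≤ -1) (hk : 0 ≤ k) :
    y - (y k) • e k = res {n | n ≤ b} y + res ((Finset.Ioo b 0 : Finset ℤ) : Set ℤ) y +
      res {n | 0 ≤ n ∧ n < k} y + res {n | k < n} y := by
  classical
  apply Subtype.ext
  funext m
  change y m - (y k) * (e k) m = (res {n | n ≤ b} y) m +
      (res ((Finset.Ioo b 0 : Finset ℤ) : Set ℤ) y) m +
      (res {n | 0 ≤ n ∧ n < k} y) m + (res {n | k < n} y) m
  rw [res_apply, res_apply, res_apply, res_apply, e_apply]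
  simp only [Set.indicator_apply, Set.mem_ofPred_eq, Finset.coe_Ioo, Set.mem_Ioo]
  by_cases h1 : m ≤ b
  · have h2 : ¬ (b < m ∧ m < 0) := by rintro ⟨h, -⟩; omega
    have h3 : ¬ (0 ≤ m ∧ m < k) := by rintro ⟨h, -⟩; omega
    have h4 : ¬ (k < m) := by omega
    have h5 : ¬ (m = k) := by omega
    simp [h1, h2, h3, h4, h5]
  · by_cases h2 : b < m ∧ m < 0
    · have h3 : ¬ (0 ≤ m ∧ m < k) := by rintro ⟨h, -⟩; omega
      have h4 : ¬ (k < m) := by omega
      have h5 : ¬ (m = k) := by omega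
      simp [h1, h2, h3, h4, h5]
    · by_cases h3 : 0 ≤ m ∧ m < k
      · have h4 : ¬ (k < m) := by omega
        have h5 : ¬ (m = k) := by omega
        simp [h1, h2, h3, h4, h5]
      · by_cases h4 : k < m
        · have h5 : ¬ (m = k) := by omega
          simp [h1, h2, h3, h4, h5]
        · have h5 : m = k := by omega
          subst h5
          simp [h1, h2]

theorem F3E_final (F C0 Y t κ : ℝ) (k A : ℝ) (hF : 0 ≤ F) (hC0 : 0 < C0) (ht : 0 ≤ t)
    (hk : 0 ≤ k) (hA : 2 ≤ A)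
    (hY : C0 * Real.exp (A * t) ≤ 2 * Y)
    (hκ : κ ≤ k * (k + 1) * Real.exp ((A - 3) * t) * F) :
    2 * F + κ + 2 / Real.exp (3 * t / 4) * (Y + F) + 2 * (Real.exp (-t) * Y + F) ≤
      ((7 * (2 * F / C0) + 4) * (k + 1) ^ 2 * Real.exp (-(t / 4))) * Y := by
  have hYpos : 0 < Y := by
    have : 0 < C0 * Real.exp (A * t) := by positivity
    linarith
  set D : ℝ := 2 * F / C0 with hD
  have hD0 : 0 ≤ D := by positivity
  have hFY : F ≤ D * Real.exp (-(A * t)) * Y := by
    have h1 : F = D * C0 / 2 := by rw [hD]; field_simp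
    have h2 : C0 * (Real.exp (A * t) * Real.exp (-(A * t))) ≤ 2 * Y * Real.exp (-(A * t)) := by
      have := mul_le_mul_of_nonneg_right hY (Real.exp_pos (-(A * t))).le
      linarith
    rw [← Real.exp_add, add_neg_cancel, Real.exp_zero, mul_one] at h2
    have h3 : D * C0 ≤ D * (2 * Y * Real.exp (-(A * t))) := mul_le_mul_of_nonneg_left h2 hD0
    nlinarith
  set X : ℝ := Real.exp (-(t / 4)) with hX
  have hX0 : 0 < X := Real.exp_pos _
  have hX1 : X ≤ 1 := by rw [hX, Real.exp_le_one_iff]; linarith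
  have e1 : Real.exp (-(A * t)) ≤ X := by
    rw [hX]; apply Real.exp_le_exp.2; nlinarith
  have e2 : Real.exp (-t) ≤ X := by
    rw [hX]; apply Real.exp_le_exp.2; nlinarith
  have e3 : 2 / Real.exp (3 * t / 4) ≤ 2 * X := by
    rw [div_eq_mul_inv, ← Real.exp_neg]
    apply mul_le_mul_of_nonneg_left _ (by norm_num)
    rw [hX]; apply Real.exp_le_exp.2; nlinarith
  have e3' : Real.exp (3 * t / 4) ≥ 1 := by
    exact Real.one_le_exp (by positivity)
  have e4 : F ≤ D * X * Y := hFY.trans (by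
    apply mul_le_mul_of_nonneg_right _ hYpos.le
    exact mul_le_mul_of_nonneg_left e1 hD0)
  have e5 : Real.exp ((A - 3) * t) * F ≤ D * X * Y := by
    have h1 : Real.exp ((A - 3) * t) * F ≤ Real.exp ((A - 3) * t) * (D * Real.exp (-(A * t)) * Y) :=
      mul_le_mul_of_nonneg_left hFY (Real.exp_pos _).le
    have h2 : Real.exp ((A - 3) * t) * (D * Real.exp (-(A * t)) * Y) =
        D * (Real.exp ((A - 3) * t) * Real.exp (-(A * t))) * Y := by ring
    rw [h2, ← Real.exp_add] at h1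
    refine h1.trans ?_
    apply mul_le_mul_of_nonneg_right _ hYpos.le
    apply mul_le_mul_of_nonneg_left _ hD0
    rw [hX]; apply Real.exp_le_exp.2; nlinarith
  have e6 : κ ≤ (k + 1) ^ 2 * (D * X * Y) := by
    have h1 : k * (k + 1) * Real.exp ((A - 3) * t) * F = k * (k + 1) * (Real.exp ((A - 3) * t) * F) := by
      ring
    rw [h1] at hκ
    refine hκ.trans ?_
    apply mul_le_mul _ e5 (by positivity) (by positivity)
    nlinarith
  have e7 : (1:ℝ) ≤ (k + 1) ^ 2 := by nlinarith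
  have hDXY : 0 ≤ D * X * Y := by positivity
  have hXY : 0 ≤ X * Y := by positivity
  have e8 : D * X * Y ≤ (k + 1) ^ 2 * (D * X * Y) := le_mul_of_one_le_left hDXY e7
  have e9 : X * Y ≤ (k + 1) ^ 2 * (X * Y) := le_mul_of_one_le_left hXY e7
  have e10 : 2 / Real.exp (3 * t / 4) * (Y + F) ≤ 2 * X * Y + 2 * F := by
    have h1 : 2 / Real.exp (3 * t / 4) * Y ≤ 2 * X * Y := mul_le_mul_of_nonneg_right e3 hYpos.le
    have h2 : 2 / Real.exp (3 * t / 4) ≤ 2 := by
      rw [div_le_iff₀ (by positivity)]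
      linarith
    have h3 : 2 / Real.exp (3 * t / 4) * F ≤ 2 * F := mul_le_mul_of_nonneg_right h2 hF
    linarith
  have e11 : 2 * (Real.exp (-t) * Y + F) ≤ 2 * (X * Y) + 2 * F := by
    have h1 : Real.exp (-t) * Y ≤ X * Y := mul_le_mul_of_nonneg_right e2 hYpos.le
    linarith
  have e12 : ((7 * D + 4) * (k + 1) ^ 2 * X) * Y =
    7 * ((k + 1) ^ 2 * (D * X * Y)) + 4 * ((k + 1) ^ 2 * (X * Y)) := by ring
  rw [e12]
  linarith

theorem F3E (hF1 : S_F1) (hF1s : S_F1s) (hF2 : S_F2) (hR : S_F3R) (hM : S_F3M) (hL : S_F3L)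
    (hG : S_F3G) (hB : S_F3B) : S_F3E := by
  classical
  intro d hd W hWc hWi hW
  obtain ⟨f, hfW, hf0⟩ := (Submodule.ne_bot_iff W).1 hW
  obtain ⟨q0, hq0⟩ : ∃ q0 : ℤ, f q0 ≠ 0 := by
    by_contra h
    push Not at h
    apply hf0
    apply Subtype.ext
    funext n
    exact h n
  obtain ⟨C0, hC0, hBk⟩ := hB d hd f q0 hq0
  obtain ⟨K1, hK1q, hK1⟩ := hd.imb (q0.natAbs + 2)
  refine ⟨7 * (2 * ‖f‖ / C0) + 4, K1 + 1, fun k hk => ?_⟩
  have hkq : (|q0| : ℤ) + 4 ≤ k := by
    have h1 : ((q0.natAbs : ℕ) : ℤ) = |q0| := Int.natCast_natAbs q0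
    omega
  have hq0k : q0 ≤ k := by
    have := le_abs_self q0
    linarith
  have hk0 : (0:ℤ) ≤ k := by positivity
  set t : ℝ := d k / 2 with ht
  have hdk : d k = 2 * t := by rw [ht]; ring
  have ht4 : 4 ≤ t := by
    have := hd.pos k
    rw [ht]; linarith
  obtain ⟨ζ, hζ, hζS⟩ := hF2 (fun m => coef d f k m) (Real.exp t) (Real.exp_pos _).le
    (hF1s d hd f k (Real.exp t) (Real.exp_pos _).le) (((k : ℤ) - q0).toNat)
  obtain ⟨y, hyR, hyS, hyW⟩ := hF1 d hd f ζ
  have hyW := hyW W hWc hWi hfW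
  have hY := (hBk k hq0k).trans (hζS (y k) (hyS k))
  -- abbreviations
  have hw : ∀ n, ‖ζ‖ * w d n = Real.exp (t - d n) := by
    intro n
    rw [hζ]
    unfold w
    rw [← Real.exp_add]
    congr 1
  set b : ℤ := (|q0| + 2) - k + 1 with hb
  have hb1 : b ≤ -1 := by rw [hb]; linarith
  -- right
  have half : Real.exp (-t) ≤ 1 / 2 := by
    have h1 : Real.exp (-t) ≤ Real.exp (-1) := Real.exp_le_exp.2 (by linarith)
    have h2 := Real.exp_neg_one_lt_half
    linarith
  have hright := hR d f ζ y k (Real.exp (-t)) hyR (Real.exp_pos _).le half (by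
    intro n hn
    rw [hw]
    apply Real.exp_le_exp.2
    have := F3E_mono_right' hd k n hk0 hn
    linarith)
  have hmid := hM d f ζ y 0 k (Real.exp (3 * t / 4)) hyR (by
    have h1 : 3 * t / 4 + 1 ≤ Real.exp (3 * t / 4) := Real.add_one_le_exp _
    linarith) (by
    intro n hn0 hnk
    rw [hw]
    apply Real.exp_le_exp.2
    have h1 := hd.right n hn0
    have h2 := F3E_mono_right' hd (n + 1) k (by linarith) (by linarith)
    linarith)
  have hleft := hL d f ζ y b hyR (by
    intro n hn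
    rw [hw]
    refine le_trans ?_ half
    apply Real.exp_le_exp.2
    have h1 := hK1 k (by omega)
    have h0 : (((q0.natAbs + 2 : ℕ) : ℤ)) = |q0| + 2 := by
      rw [Nat.cast_add, Int.natCast_natAbs]
      rfl
    rw [h0] at h1
    have h2 := F3E_mono_left' hd ((|q0| + 2) - k) n (by linarith) (by rw [hb] at hn; linarith)
    linarith)
  have hyb : ‖y b‖ ≤ 2 * ‖f‖ := by
    refine le_trans ?_ hleft
    have h1 := lp.norm_apply_le_norm (by norm_num : (2:ℝ≥0∞) ≠ 0) (res {n | n ≤ b} y) b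
    rw [res_apply, Set.indicator_of_mem (show b ∈ {n | n ≤ b} from le_refl b)] at h1
    exact h1
  have hgrow : ∀ j : ℕ, ‖y (b + j)‖ ≤ (j + 2) * Real.exp (j * t) * ‖f‖ := by
    intro j
    apply hG d f ζ y b t j (by linarith) hyR hyb
    intro n _ _
    rw [hw]
    apply Real.exp_le_exp.2
    have := hd.pos n
    linarith
  set A : ℝ := (k : ℝ) - |(q0 : ℝ)| - 1 with hA
  have habs : (((|q0| : ℤ)) : ℝ) = |(q0 : ℝ)| := by push_cast; rfl
  have hkqR : |(q0 : ℝ)| + 4 ≤ (k : ℝ) := by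
    have h1 : (((|q0| : ℤ) + 4 : ℤ) : ℝ) ≤ (k : ℤ) := by exact_mod_cast hkq
    push_cast at h1
    simpa using h1
  have hA2 : 2 ≤ A := by rw [hA]; linarith
  have hκ : ‖res ((Finset.Ioo b 0 : Finset ℤ) : Set ℤ) y‖ ≤
      (k : ℝ) * (k + 1) * Real.exp ((A - 3) * t) * ‖f‖ := by
    refine (F3E_res_finset _ _).trans ?_
    have h1 : ∀ n ∈ Finset.Ioo b 0, ‖y n‖ ≤ ((k : ℝ) + 1) * Real.exp ((A - 3) * t) * ‖f‖ := by
      intro n hn
      rw [Finset.mem_Ioo] at hn
      have h2 := hgrow (n - b).toNat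
      have h3 : (((n - b).toNat : ℕ) : ℤ) = n - b := Int.toNat_of_nonneg (by linarith)
      have h4 : b + (((n - b).toNat : ℕ) : ℤ) = n := by rw [h3]; ring
      rw [h4] at h2
      refine h2.trans ?_
      have h5 : (((n - b).toNat : ℕ) : ℝ) = ((n - b : ℤ) : ℝ) := by
        rw [← h3]; norm_cast
      rw [h5]
      have h6 : ((n - b : ℤ) : ℝ) ≤ A - 3 := by
        have h7 : (n - b : ℤ) ≤ k - |q0| - 4 := by rw [hb]; linarith [hn.2]
        have h8 : ((n - b : ℤ) : ℝ) ≤ ((k - |q0| - 4 : ℤ) : ℝ) := by exact_mod_cast h7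
        refine h8.trans ?_
        rw [hA]
        push_cast
        linarith
      have h9 : (0:ℝ) ≤ |(q0 : ℝ)| := abs_nonneg _
      apply mul_le_mul_of_nonneg_right _ (norm_nonneg _)
      have h10 : (0:ℝ) ≤ ((n - b : ℤ) : ℝ) := by
        have : (0:ℤ) ≤ n - b := by linarith [hn.1]
        exact_mod_cast this
      apply mul_le_mul _ _ (Real.exp_pos _).le (by positivity)
      · rw [hA] at h6; linarith
      · apply Real.exp_le_exp.2
        apply mul_le_mul_of_nonneg_right h6 (by linarith)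
    refine (Finset.sum_le_sum h1).trans ?_
    rw [Finset.sum_const, nsmul_eq_mul]
    have hcard : ((Finset.Ioo b 0).card : ℝ) ≤ k := by
      rw [Int.card_Ioo]
      have : (0 - b - 1).toNat ≤ k := by
        rw [hb]
        have := abs_nonneg q0
        omega
      exact_mod_cast this
    have h0 : 0 ≤ ((k : ℝ) + 1) * Real.exp ((A - 3) * t) * ‖f‖ := by positivity
    calc ((Finset.Ioo b 0).card : ℝ) * (((k : ℝ) + 1) * Real.exp ((A - 3) * t) * ‖f‖)
        ≤ (k : ℝ) * (((k : ℝ) + 1) * Real.exp ((A - 3) * t) * ‖f‖) :=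
          mul_le_mul_of_nonneg_right hcard h0
      _ = _ := by ring
  have hfin := F3E_final ‖f‖ C0 ‖y k‖ t _ k A (norm_nonneg _) hC0 (by linarith) (by positivity) hA2
    hY hκ
  have hYpos : 0 < ‖y k‖ := by
    have : 0 < C0 * Real.exp (A * t) := by positivity
    linarith
  have hyk : y k ≠ 0 := norm_pos_iff.1 hYpos
  refine ⟨(y k)⁻¹ • y, W.smul_mem _ hyW, ?_⟩
  have hdec := F3E_decomp y b k hb1 hk0
  have hnorm : ‖y - (y k) • e k‖ ≤
      (7 * (2 * ‖f‖ / C0) + 4) * ((k : ℝ) + 1) ^ 2 * Real.exp (-(t / 4)) * ‖y k‖ := by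
    refine le_trans ?_ hfin
    rw [hdec]
    refine (norm_add_le _ _).trans ?_
    refine add_le_add ((norm_add_le _ _).trans ?_) hright
    refine add_le_add ((norm_add_le _ _).trans ?_) hmid
    exact add_le_add hleft (le_refl _)
  have heq : e k - (y k)⁻¹ • y = (-(y k)⁻¹) • (y - (y k) • e k) := by
    rw [smul_sub, smul_smul]
    simp only [neg_mul, neg_smul, inv_mul_cancel₀ hyk, one_smul]
    abel
  rw [heq, norm_smul, norm_neg, norm_inv]
  have hexp : Real.exp (-(d k) / 8) = Real.exp (-(t / 4)) := by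
    congr 1
    rw [hdk]; ring
  rw [hexp]
  rw [inv_mul_le_iff₀ hYpos]
  linarith

end H94T
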