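import Pool.Agent.H94R5.TA.Spec

set_option autoImplicit false
open scoped ENNReal
open MeasureTheory

noncomputable section
namespace H94T

theorem F3G : S_F3G := by
  unfold S_F3G
  intro d f ζ y b t j ht hR hb
  induction j with
  | zero =>
    intro _
    simp only [Nat.cast_zero, add_zero, zero_add, zero_mul, Real.exp_zero, mul_one]
    exact hb
  | succ j ih =>
    intro hw
    have ih' := ih (fun n h1 h2 => hw n h1 (by push_cast; linarith))
    have h1 := hR (b + ((j + 1 : ℕ) : ℤ))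
    have e1 : b + ((j + 1 : ℕ) : ℤ) - 1 = b + (j : ℤ) := by push_cast; ring
    rw [e1] at h1
    have h2 : ‖(w d (b + (j : ℤ)) : ℂ)‖ = w d (b + (j : ℤ)) := by
      rw [Complex.norm_real, Real.norm_eq_abs, abs_of_pos (show 0 < w d (b + (j : ℤ)) from Real.exp_pos _)]
    have h3 := hw (b + (j : ℤ)) (by linarith [Int.natCast_nonneg j]) (by push_cast; linarith)
    have h4 : ‖f (b + ((j + 1 : ℕ) : ℤ))‖ ≤ ‖f‖ := lp.norm_apply_le_norm (by norm_num) f _
    have h5 : 1 ≤ Real.exp (((j : ℝ) + 1) * t) := Real.one_le_exp (by positivity)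
    have h6 : 0 ≤ ‖f‖ := norm_nonneg f
    rw [h1]
    calc ‖f (b + ((j + 1 : ℕ) : ℤ)) + ζ * (w d (b + (j : ℤ)) : ℂ) * y (b + (j : ℤ))‖
        ≤ ‖f (b + ((j + 1 : ℕ) : ℤ))‖ + ‖ζ‖ * w d (b + (j : ℤ)) * ‖y (b + (j : ℤ))‖ := by
          refine (norm_add_le _ _).trans (le_of_eq ?_)
          rw [norm_mul, norm_mul, h2]
      _ ≤ ‖f‖ + Real.exp t * (((j : ℝ) + 2) * Real.exp (j * t) * ‖f‖) := by
          refine add_le_add h4 (mul_le_mul h3 ih' (norm_nonneg _) (Real.exp_pos _).le)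
      _ = ‖f‖ + ((j : ℝ) + 2) * Real.exp (((j : ℝ) + 1) * t) * ‖f‖ := by
          rw [show ((j : ℝ) + 1) * t = t + j * t by ring, Real.exp_add]
          ring
      _ ≤ Real.exp (((j : ℝ) + 1) * t) * ‖f‖ + ((j : ℝ) + 2) * Real.exp (((j : ℝ) + 1) * t) * ‖f‖ := by
          have := mul_le_mul_of_nonneg_right h5 h6
          linarith
      _ = (((j + 1 : ℕ) : ℝ) + 2) * Real.exp (((j + 1 : ℕ) : ℝ) * t) * ‖f‖ := by
          push_cast
          ring

end H94T
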