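import Pool.Agent.H94R5.TA.Spec

set_option autoImplicit false
open scoped ENNReal Topology
open MeasureTheory Filter

noncomputable section
namespace H94T

theorem F3L_mono {u v : E} {σ : ℤ → ℤ} (hσ : Function.Injective σ)
    (h : ∀ n : ℤ, ‖u n‖ ≤ ‖v (σ n)‖) : ‖u‖ ≤ ‖v‖ := by
  classical
  have h2 : 0 < (2 : ℝ≥0∞).toReal := by norm_num
  refine lp.norm_le_of_forall_sum_le h2 (norm_nonneg _) (fun s => ?_)
  calc ∑ i ∈ s, ‖u i‖ ^ (2 : ℝ≥0∞).toReal
      ≤ ∑ i ∈ s, ‖v (σ i)‖ ^ (2 : ℝ≥0∞).toReal := by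
        apply Finset.sum_le_sum
        intro i _
        exact Real.rpow_le_rpow (norm_nonneg _) (h i) h2.le
    _ = ∑ j ∈ s.image σ, ‖v j‖ ^ (2 : ℝ≥0∞).toReal := by
        rw [Finset.sum_image (fun a _ b _ hab => hσ hab)]
    _ ≤ ‖v‖ ^ (2 : ℝ≥0∞).toReal := lp.sum_rpow_le_norm_rpow h2 v _

theorem F3L_mem {σ : ℤ → ℤ} (hσ : Function.Injective σ) (v : E) :
    Memℓp (fun n => ((‖v (σ n)‖ : ℝ) : ℂ)) 2 := by
  have h := lp.memℓp v
  rw [memℓp_gen_iff (by norm_num)] at h ⊢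
  have h2 := h.comp_injective hσ
  refine h2.congr (fun n => ?_)
  simp

/-- absolute values of a shifted sequence -/
def F3L_sh {σ : ℤ → ℤ} (hσ : Function.Injective σ) (v : E) : E :=
  ⟨fun n => ((‖v (σ n)‖ : ℝ) : ℂ), F3L_mem hσ v⟩

theorem F3L_sh_apply {σ : ℤ → ℤ} (hσ : Function.Injective σ) (v : E) (n : ℤ) :
    (F3L_sh hσ v) n = ((‖v (σ n)‖ : ℝ) : ℂ) := rfl

theorem F3L_sh_norm {σ : ℤ → ℤ} (hσ : Function.Injective σ) (v : E) :
    ‖F3L_sh hσ v‖ ≤ ‖v‖ := by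
  apply F3L_mono hσ
  intro n
  rw [F3L_sh_apply, Complex.norm_real, norm_norm]

theorem F3L_tri {u a b : E} {σ τ : ℤ → ℤ} (hσ : Function.Injective σ)
    (hτ : Function.Injective τ) {C : ℝ} (hC : 0 ≤ C)
    (h : ∀ n : ℤ, ‖u n‖ ≤ ‖a (σ n)‖ + C * ‖b (τ n)‖) : ‖u‖ ≤ ‖a‖ + C * ‖b‖ := by
  have h1 : ‖u‖ ≤ ‖F3L_sh hσ a + (C : ℂ) • F3L_sh hτ b‖ := by
    apply F3L_mono (σ := id) Function.injective_id
    intro n
    have e : (F3L_sh hσ a + (C : ℂ) • F3L_sh hτ b) (id n) =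
        ((‖a (σ n)‖ + C * ‖b (τ n)‖ : ℝ) : ℂ) := by
      rw [lp.coeFn_add, Pi.add_apply, lp.coeFn_smul, Pi.smul_apply]
      simp [F3L_sh_apply]
    rw [e, Complex.norm_real, Real.norm_of_nonneg (by positivity)]
    exact h n
  refine h1.trans ((norm_add_le _ _).trans ?_)
  rw [norm_smul, Complex.norm_real, Real.norm_of_nonneg hC]
  exact add_le_add (F3L_sh_norm hσ a) (mul_le_mul_of_nonneg_left (F3L_sh_norm hτ b) hC)

theorem F3L : S_F3L := by
  intro d f ζ y b hR hb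
  have hsub : Function.Injective (fun n : ℤ => n - 1) := fun a b h => by
    simpa using h
  have key : ‖res {n | n ≤ b} y‖ ≤ ‖f‖ + 1 / 2 * ‖res {n | n ≤ b} y‖ := by
    apply F3L_tri (σ := id) (τ := fun n => n - 1) Function.injective_id hsub (by norm_num)
    intro n
    rw [res_apply, res_apply]
    by_cases hn : n ≤ b
    · have h1 : n ∈ {n : ℤ | n ≤ b} := hn
      have h2 : n - 1 ∈ {n : ℤ | n ≤ b} := by
        show n - 1 ≤ b
        omega
      rw [Set.indicator_of_mem h1, Set.indicator_of_mem h2, hR n]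
      refine (norm_add_le _ _).trans ?_
      have hw : ‖w d (n - 1)‖ = w d (n - 1) := Real.norm_of_nonneg (Real.exp_pos _).le
      rw [norm_mul, norm_mul, Complex.norm_real, hw]
      have h3 := hb (n - 1) (by omega)
      have h4 := mul_le_mul_of_nonneg_right h3 (norm_nonneg (y (n - 1)))
      show ‖f n‖ + _ ≤ ‖f n‖ + _
      linarith
    · have h1 : n ∉ {n : ℤ | n ≤ b} := hn
      rw [Set.indicator_of_notMem h1, norm_zero]
      positivity
  linarith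

end H94T
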