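import Pool.Agent.H94R5.TA.F3L

set_option autoImplicit false
open scoped ENNReal Topology
open MeasureTheory Filter

noncomputable section
namespace H94T

theorem F3M : S_F3M := by
  classical
  intro d f ζ y a k L hR hL hw
  have hadd : Function.Injective (fun n : ℤ => n + 1) := fun a b h => by
    simpa using h
  have hL0 : 0 < L := by linarith
  -- the last value
  obtain ⟨S, hS1, hS2, hS3⟩ : ∃ S : E, ‖S‖ = ‖y k‖ ∧ S k = y k ∧ ∀ n, n ≠ k → S n = 0 := by
    refine ⟨lp.single 2 k (y k), ?_, ?_, ?_⟩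
    · exact lp.norm_single (E := fun _ : ℤ => ℂ) (p := 2) (by norm_num) k (y k)
    · rw [lp.single_apply]
      simp
    · intro n hn
      rw [lp.single_apply]
      simp [hn]
  set Y : E := res {n | a ≤ n ∧ n < k} y with hY
  -- the sum of `Y` and `f` in absolute value
  have hid : Function.Injective (id : ℤ → ℤ) := Function.injective_id
  have h1 : ‖(L : ℂ) • Y‖ ≤ ‖F3L_sh hid S + F3L_sh hid f‖ + 1 * ‖Y‖ := by
    apply F3L_tri (σ := fun n => n + 1) (τ := fun n => n + 1) hadd hadd (by norm_num)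
    intro n
    have e : (F3L_sh hid S + F3L_sh hid f) (n + 1) =
        ((‖S (n + 1)‖ + ‖f (n + 1)‖ : ℝ) : ℂ) := by
      rw [lp.coeFn_add, Pi.add_apply, F3L_sh_apply, F3L_sh_apply]
      simp
    rw [e, Complex.norm_real, Real.norm_of_nonneg (by positivity), lp.coeFn_smul, Pi.smul_apply,
      norm_smul, Complex.norm_real, Real.norm_of_nonneg hL0.le, hY, res_apply, res_apply,
      one_mul]
    by_cases hn : a ≤ n ∧ n < k
    · have m1 : n ∈ {n : ℤ | a ≤ n ∧ n < k} := hn
      rw [Set.indicator_of_mem m1]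
      have h2 := hR (n + 1)
      have e1 : n + 1 - 1 = n := by ring
      rw [e1] at h2
      have h3 : ζ * (w d n : ℂ) * y n = y (n + 1) - f (n + 1) := by
        rw [h2]
        ring
      have h4 : ‖ζ‖ * w d n * ‖y n‖ ≤ ‖y (n + 1)‖ + ‖f (n + 1)‖ := by
        have h5 := norm_sub_le (y (n + 1)) (f (n + 1))
        have hw' : ‖w d n‖ = w d n := Real.norm_of_nonneg (Real.exp_pos _).le
        rw [← h3, norm_mul, norm_mul, Complex.norm_real, hw'] at h5
        exact h5
      have h6 : L * ‖y n‖ ≤ ‖ζ‖ * w d n * ‖y n‖ :=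
        mul_le_mul_of_nonneg_right (hw n hn.1 hn.2) (norm_nonneg _)
      by_cases hk : n + 1 = k
      · have e2 : S (n + 1) = y (n + 1) := by
          rw [hk]
          exact hS2
        rw [e2]
        have : 0 ≤ ‖Set.indicator {n : ℤ | a ≤ n ∧ n < k} (fun n => (y n : ℂ)) (n + 1)‖ :=
          norm_nonneg _
        linarith
      · have m2 : n + 1 ∈ {n : ℤ | a ≤ n ∧ n < k} := ⟨by omega, by omega⟩
        rw [Set.indicator_of_mem m2]
        have := norm_nonneg (S (n + 1))
        linarith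
    · have m1 : n ∉ {n : ℤ | a ≤ n ∧ n < k} := hn
      rw [Set.indicator_of_notMem m1, norm_zero, mul_zero]
      positivity
  have h2 : ‖F3L_sh hid S + F3L_sh hid f‖ ≤ ‖y k‖ + ‖f‖ := by
    refine (norm_add_le _ _).trans ?_
    rw [← hS1]
    exact add_le_add (F3L_sh_norm hid S) (F3L_sh_norm hid f)
  rw [norm_smul, Complex.norm_real, Real.norm_of_nonneg hL0.le] at h1
  have h3 : (L / 2) * ‖Y‖ ≤ ‖y k‖ + ‖f‖ := by
    have h4 : (L / 2) * ‖Y‖ ≤ (L - 1) * ‖Y‖ :=
      mul_le_mul_of_nonneg_right (by linarith) (norm_nonneg _)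
    linarith
  have h5 : ‖Y‖ = 2 / L * ((L / 2) * ‖Y‖) := by
    field_simp
  rw [h5]
  exact mul_le_mul_of_nonneg_left h3 (by positivity)

end H94T
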