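import Pool.Agent.H94R5.TA.Spec

set_option autoImplicit false
open scoped ENNReal Topology InnerProductSpace
open MeasureTheory Filter

noncomputable section
namespace H94T
namespace F4Aux

theorem norm_sq_eq (x : E) : ‖x‖ ^ 2 = ∑' a, ‖x a‖ ^ 2 := by
  have h := lp.norm_rpow_eq_tsum (p := 2) (by norm_num) x
  simpa using h

theorem summable_sq (x : E) : Summable fun a => ‖x a‖ ^ 2 := by
  have h := (lp.memℓp x)
  rw [memℓp_gen_iff (by norm_num)] at h
  simpa using h

theorem norm_apply_le (x : E) (n : ℤ) : ‖x n‖ ≤ ‖x‖ := by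
  have h1 : ‖x n‖ ^ 2 ≤ ‖x‖ ^ 2 := by
    rw [norm_sq_eq]
    exact (summable_sq x).le_tsum n (fun j _ => by positivity)
  exact (sq_le_sq₀ (norm_nonneg _) (norm_nonneg _)).1 h1

theorem norm_res_le (S : Set ℤ) (x : E) : ‖res S x‖ ≤ ‖x‖ := by
  have h1 : ‖res S x‖ ^ 2 ≤ ‖x‖ ^ 2 := by
    rw [norm_sq_eq, norm_sq_eq]
    refine (summable_sq _).tsum_le_tsum (fun n => ?_) (summable_sq x)
    rw [res_apply]
    by_cases hn : n ∈ S
    · rw [Set.indicator_of_mem hn]
    · rw [Set.indicator_of_notMem hn]
      simp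
  exact (sq_le_sq₀ (norm_nonneg _) (norm_nonneg _)).1 h1

/-- the restriction as a continuous linear map -/
def RR (S : Set ℤ) : E →L[ℂ] E :=
  LinearMap.mkContinuous
    { toFun := res S
      map_add' := by
        intro x y
        ext n
        rw [lp.coeFn_add, Pi.add_apply, res_apply, res_apply, res_apply]
        by_cases hn : n ∈ S
        · simp only [Set.indicator_of_mem hn, lp.coeFn_add, Pi.add_apply]
        · simp only [Set.indicator_of_notMem hn, add_zero]
      map_smul' := by
        intro r x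
        ext n
        rw [RingHom.id_apply, lp.coeFn_smul, Pi.smul_apply, res_apply, res_apply]
        by_cases hn : n ∈ S
        · simp only [Set.indicator_of_mem hn, lp.coeFn_smul, Pi.smul_apply]
        · simp only [Set.indicator_of_notMem hn, smul_zero] } 1 (by
    intro x
    rw [one_mul]
    exact norm_res_le S x)

theorem RR_apply (S : Set ℤ) (x : E) : RR S x = res S x := rfl

theorem hasSum_e (x : E) : HasSum (fun n : ℤ => (x n : ℂ) • e n) x := by
  classical
  have h := lp.hasSum_single (p := 2) (E := fun _ : ℤ => ℂ) (by norm_num) x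
  convert h using 2 with n
  unfold e
  rw [← lp.single_smul]
  simp

end F4Aux

open F4Aux in
theorem F4 : S_F4 := by
  intro W hW K hk
  have : CompleteSpace W := hW.completeSpace_coe
  set Q : E →L[ℂ] E := W.starProjection with hQ
  have hQmem : ∀ x, Q x ∈ W := fun x => W.starProjection_apply_mem x
  set S : Set ℤ := {n | (K : ℤ) ≤ n} with hS
  set R : E →L[ℂ] E := RR S with hR
  set P : E →L[ℂ] E := 1 - Q with hP
  have hdist : ∀ k : ℕ, K ≤ k → ‖P (e k)‖ ≤ (1 / 2) ^ (k + 2) := by
    intro k hk'
    obtain ⟨u, hu, hle⟩ := hk k hk'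
    refine le_trans ?_ hle
    have h1 : P (e k) = P (e k - u) := by
      have h2 : P u = 0 := by
        have : Q u = u := Submodule.starProjection_eq_self_iff.2 hu
        simp [hP, this]
      rw [map_sub, h2, sub_zero]
    rw [h1]
    have h3 : ‖P (e k - u)‖ ≤ ‖e k - u‖ := by
      have h4 : P (e k - u) = Wᗮ.starProjection (e k - u) := by
        rw [Submodule.starProjection_orthogonal_val]
        simp [hP, hQ]
      rw [h4]
      exact Submodule.norm_starProjection_apply_le _ _
    exact h3
  set N : E →L[ℂ] E := R.comp (P.comp R) with hN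
  have hNle : ‖N‖ ≤ 1 / 2 := by
    apply ContinuousLinearMap.opNorm_le_bound _ (by norm_num)
    intro m
    have h1 : HasSum (fun n : ℤ => ((R m) n : ℂ) • P (e n)) (P (R m)) := by
      have := (hasSum_e (R m)).mapL P
      simpa [map_smul] using this
    have h2 : HasSum (fun n : ℤ => if 0 ≤ n then ‖m‖ * (1 / 2 : ℝ) ^ (n.toNat + 2) else 0)
        (1 / 2 * ‖m‖) := by
      rw [← Function.Injective.hasSum_iff (Nat.cast_injective (R := ℤ))]
      · have h3 : ((fun n : ℤ => if 0 ≤ n then ‖m‖ * (1 / 2 : ℝ) ^ (n.toNat + 2) else 0) ∘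
            (Nat.cast : ℕ → ℤ)) = fun n : ℕ => (‖m‖ / 4) * (1 / 2 : ℝ) ^ n := by
          funext n
          simp only [Function.comp, Int.natCast_nonneg, if_true, Int.toNat_natCast, pow_add]
          ring
        rw [h3]
        have h4 := (hasSum_geometric_two).mul_left (‖m‖ / 4)
        have h5 : ‖m‖ / 4 * 2 = 1 / 2 * ‖m‖ := by ring
        rwa [h5] at h4
      · intro n hn
        rw [if_neg]
        intro h0
        exact hn ⟨n.toNat, Int.toNat_of_nonneg h0⟩
    have h6 : ‖P (R m)‖ ≤ 1 / 2 * ‖m‖ := by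
      refine h1.norm_le_of_bounded h2 ?_
      intro n
      by_cases hn : n ∈ S
      · have hn' : (K : ℤ) ≤ n := hn
        have hn0 : 0 ≤ n := le_trans (Int.natCast_nonneg K) hn'
        rw [if_pos hn0, norm_smul]
        obtain ⟨k, rfl⟩ := Int.eq_ofNat_of_zero_le hn0
        have hKk : K ≤ k := by exact_mod_cast hn'
        have h7 : (R m) (k : ℤ) = m (k : ℤ) := by
          rw [hR, RR_apply, res_apply, Set.indicator_of_mem hn]
        rw [h7, Int.toNat_natCast]
        exact mul_le_mul (norm_apply_le m _) (hdist k hKk) (norm_nonneg _) (norm_nonneg _)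
      · have h7 : (R m) n = 0 := by
          rw [hR, RR_apply, res_apply, Set.indicator_of_notMem hn]
        rw [h7, zero_smul, norm_zero]
        split_ifs <;> positivity
    calc ‖N m‖ = ‖R (P (R m))‖ := rfl
      _ ≤ ‖P (R m)‖ := by rw [hR, RR_apply]; exact norm_res_le _ _
      _ ≤ 1 / 2 * ‖m‖ := h6
  have hN1 : ‖N‖ < 1 := by linarith
  obtain ⟨m, hm⟩ : ∃ m : E, m - N m = e K := by
    set U := Units.oneSub N hN1 with hU
    refine ⟨((U⁻¹ : (E →L[ℂ] E)ˣ) : E →L[ℂ] E) (e K), ?_⟩
    have h1 : (U : E →L[ℂ] E) = 1 - N := rfl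
    have h2 : (U : E →L[ℂ] E) * ((U⁻¹ : (E →L[ℂ] E)ˣ) : E →L[ℂ] E) = 1 := U.mul_inv
    have h3 : (U : E →L[ℂ] E) (((U⁻¹ : (E →L[ℂ] E)ˣ) : E →L[ℂ] E) (e K)) = e K := by
      exact congrArg (fun A : E →L[ℂ] E => A (e K)) h2
    rw [h1] at h3
    simpa using h3
  have hRR : ∀ x : E, R (R x) = R x := by
    intro x
    ext n
    rw [hR, RR_apply, RR_apply, res_apply, res_apply]
    by_cases hn : n ∈ S
    · rw [Set.indicator_of_mem hn, Set.indicator_of_mem hn]
      rw [res_apply, Set.indicator_of_mem hn]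
    · rw [Set.indicator_of_notMem hn, Set.indicator_of_notMem hn]
  have hRe : R (e K) = e K := by
    ext n
    rw [hR, RR_apply, res_apply]
    by_cases hn : n ∈ S
    · rw [Set.indicator_of_mem hn]
    · rw [Set.indicator_of_notMem hn, e_apply, if_neg]
      rintro rfl
      exact hn (show (K : ℤ) ≤ (K : ℤ) from le_rfl)
  have hRm : R m = m := by
    have h1 : m = e K + N m := by rw [← hm]; abel
    have h2 : R (N m) = N m := hRR (P (R m))
    calc R m = R (e K + N m) := by rw [← h1]
      _ = R (e K) + R (N m) := map_add R _ _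
      _ = e K + N m := by rw [hRe, h2]
      _ = m := h1.symm
  have hv : R (Q m) = e K := by
    have h1 : N m = R (P m) := by
      change R (P (R m)) = R (P m)
      rw [hRm]
    have h2 : P m = m - Q m := by simp [hP]
    have h3 : R (Q m) = R m - R (P m) := by
      rw [h2, map_sub]; abel
    rw [h3, hRm, ← h1, hm]
  refine ⟨Q m, hQmem m, ?_, ?_⟩
  · have h1 := congrArg (fun y : E => y (K : ℤ)) hv
    simp only [hR, RR_apply, res_apply, e_apply, if_true] at h1
    rw [Set.indicator_of_mem (show (K : ℤ) ∈ S from show (K : ℤ) ≤ (K : ℤ) from le_rfl)] at h1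
    exact h1
  · intro n hn
    have h1 := congrArg (fun y : E => y n) hv
    simp only [hR, RR_apply, res_apply, e_apply] at h1
    rw [Set.indicator_of_mem (show n ∈ S from hn.le), if_neg hn.ne'] at h1
    exact h1

end H94T
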