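import Pool.Agent.H94R5.TA.Spec

/-! Task F5 (helper265): pigeonhole, a radius where one term dominates. -/

set_option autoImplicit false

namespace H94T

namespace F5aux

theorem pigeon (J n₀ : ℕ) (JJ : ℕ → ℕ) (hle : ∀ n, JJ n ≤ J) (hmono : ∀ n, JJ n ≤ JJ (n + 1)) :
    ∃ n, n₀ ≤ n ∧ n ≤ n₀ + J ∧ JJ n = JJ (n + 1) := by
  by_contra hcon
  push Not at hcon
  have h : ∀ i, i ≤ J + 1 → i ≤ JJ (n₀ + i) := by
    intro i
    induction i with
    | zero => intro _; exact Nat.zero_le _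
    | succ i ih =>
      intro hi
      have h1 := ih (by omega)
      have h2 := hcon (n₀ + i) (by omega) (by omega)
      have h3 := hmono (n₀ + i)
      have : n₀ + (i + 1) = n₀ + i + 1 := by ring
      rw [this]
      omega
  have := h (J + 1) le_rfl
  have := hle (n₀ + (J + 1))
  omega

end F5aux

open F5aux in
theorem F5 : S_F5 := by
  classical
  intro a ha0 ha1 n₀ J hbig
  -- maximisers
  have hex : ∀ n : ℕ, ∃ j, j ≤ J ∧ ∀ i ≤ J, a i * ((64 : ℝ) ^ n) ^ i ≤ a j * ((64 : ℝ) ^ n) ^ j := by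
    intro n
    obtain ⟨j, hj, hmax⟩ := Finset.exists_max_image (Finset.range (J + 1))
      (fun i => a i * ((64 : ℝ) ^ n) ^ i) ⟨0, Finset.mem_range.2 (Nat.succ_pos _)⟩
    exact ⟨j, by have := Finset.mem_range.1 hj; omega,
      fun i hi => hmax i (Finset.mem_range.2 (by omega))⟩
  have hmono : ∀ n, Nat.find (hex n) ≤ Nat.find (hex (n + 1)) := by
    intro n
    by_contra hcon
    push Not at hcon
    obtain ⟨h1, h2⟩ := Nat.find_spec (hex n)
    obtain ⟨k1, k2⟩ := Nat.find_spec (hex (n + 1))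
    have hnm := Nat.find_min (hex n) hcon
    set p := Nat.find (hex n) with hp
    set q := Nat.find (hex (n + 1)) with hq
    push Not at hnm
    obtain ⟨i, hi, hlt⟩ := hnm k1
    -- strict inequality at `n`
    have hs : a q * ((64 : ℝ) ^ n) ^ q < a p * ((64 : ℝ) ^ n) ^ p := lt_of_lt_of_le hlt (h2 i hi)
    have hle := k2 p h1
    have e : ∀ m : ℕ, ((64 : ℝ) ^ (n + 1)) ^ m = ((64 : ℝ) ^ n) ^ m * 64 ^ m := by
      intro m; rw [pow_succ, mul_pow]
    rw [e, e, ← mul_assoc, ← mul_assoc] at hle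
    have hpq : (64 : ℝ) ^ q ≤ 64 ^ p := pow_le_pow_right₀ (by norm_num) hcon.le
    have h0 : 0 ≤ a q * ((64 : ℝ) ^ n) ^ q := mul_nonneg (ha0 q) (by positivity)
    have hpos : (0 : ℝ) < 64 ^ p := by positivity
    have c1 : a q * ((64 : ℝ) ^ n) ^ q * 64 ^ q ≤ a q * ((64 : ℝ) ^ n) ^ q * 64 ^ p :=
      mul_le_mul_of_nonneg_left hpq h0
    have c2 : a q * ((64 : ℝ) ^ n) ^ q * 64 ^ p < a p * ((64 : ℝ) ^ n) ^ p * 64 ^ p :=
      mul_lt_mul_of_pos_right hs hpos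
    linarith
  obtain ⟨n, hn1, hn2, hn3⟩ := pigeon J n₀ (fun n => Nat.find (hex n))
    (fun n => (Nat.find_spec (hex n)).1) hmono
  obtain ⟨h1, h2⟩ := Nat.find_spec (hex n)
  obtain ⟨k1, k2⟩ := Nat.find_spec (hex (n + 1))
  rw [← hn3] at k1 k2
  set j₀ := Nat.find (hex n) with hj₀
  refine ⟨n, hn1, hn2, j₀, h1, fun j => ?_⟩
  have hall : ∀ i, a i * ((64 : ℝ) ^ (n + 1)) ^ i ≤ a j₀ * ((64 : ℝ) ^ (n + 1)) ^ j₀ := by
    intro i
    by_cases hi : i ≤ J
    · exact k2 i hi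
    · have hz := k2 0 (Nat.zero_le _)
      rw [pow_zero, ha1, mul_one] at hz
      have hb := hbig i (by omega)
      have hpw : ((64 : ℝ) ^ (n + 1)) ^ i ≤ ((64 : ℝ) ^ (n₀ + J + 1)) ^ i :=
        pow_le_pow_left₀ (by positivity) (pow_le_pow_right₀ (by norm_num) (by omega)) i
      have := mul_le_mul_of_nonneg_left hpw (ha0 i)
      linarith
  rcases Nat.lt_or_ge j j₀ with hj | hj
  · -- `j < j₀`
    obtain ⟨t, ht⟩ : ∃ t, j₀ = j + t := ⟨j₀ - j, by omega⟩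
    have hab : (((j : ℤ) - j₀).natAbs) = t := by rw [ht]; push_cast; omega
    rw [hab]
    have hle := h2 j (by omega)
    rw [ht] at hle ⊢
    have h8 : (8 : ℝ) ^ (j + t) * (1 / 8) ^ t = 8 ^ j := by
      rw [pow_add, mul_assoc, ← mul_pow]; norm_num
    rw [mul_pow, mul_pow]
    have e2 : a (j + t) * (8 ^ (j + t) * ((64 : ℝ) ^ n) ^ (j + t)) * (1 / 8) ^ t =
        8 ^ j * (a (j + t) * ((64 : ℝ) ^ n) ^ (j + t)) := by
      rw [← h8]; ring
    rw [e2]
    have := mul_le_mul_of_nonneg_left hle (show (0 : ℝ) ≤ 8 ^ j by positivity)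
    linarith
  · obtain ⟨t, ht⟩ : ∃ t, j = j₀ + t := ⟨j - j₀, by omega⟩
    have hab : (((j : ℤ) - j₀).natAbs) = t := by rw [ht]; push_cast; omega
    rw [hab]
    have hle := hall j
    have hr : (8 : ℝ) * 64 ^ n = 64 ^ (n + 1) * (1 / 8) := by rw [pow_succ]; ring
    rw [hr, mul_pow, mul_pow, ht] at *
    have e2 : a j₀ * (((64 : ℝ) ^ (n + 1)) ^ j₀ * (1 / 8) ^ j₀) * (1 / 8) ^ t =
        (1 / 8) ^ (j₀ + t) * (a j₀ * ((64 : ℝ) ^ (n + 1)) ^ j₀) := by
      rw [pow_add]; ring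
    rw [e2]
    have := mul_le_mul_of_nonneg_left hle (show (0 : ℝ) ≤ (1 / 8) ^ (j₀ + t) by positivity)
    linarith

end H94T
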