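import Pool.Agent.H94R5.TA.Spec

/-! Task F5c: radii on which the entire function is large (helper303). -/

set_option autoImplicit false
open scoped ENNReal Topology
open MeasureTheory Filter

noncomputable section
namespace H94T

theorem F5c_dneg {d : ℤ → ℝ} (hd : Steep d) (m : ℕ) : (8 : ℝ) ^ (m + 1) ≤ d (-1 - (m : ℤ)) := by
  induction m with
  | zero => simpa using hd.pos (-1)
  | succ m ih =>
    have h1 := hd.left (-1 - (m : ℤ)) (by omega)
    have e : (-1 - ((m + 1 : ℕ) : ℤ)) = -1 - (m : ℤ) - 1 := by push_cast; ring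
    rw [e]
    calc (8 : ℝ) ^ (m + 1 + 1) = 8 * 8 ^ (m + 1) := by ring
      _ ≤ 8 * d (-1 - (m : ℤ)) := by linarith
      _ ≤ _ := h1

theorem F5c_mono {d : ℤ → ℝ} (hd : Steep d) (m j : ℕ) : d (-1 - (m : ℤ)) ≤ d (-1 - (m : ℤ) - j) := by
  induction j with
  | zero => simp
  | succ j ih =>
    have h1 := hd.left (-1 - (m : ℤ) - j) (by omega)
    have h2 := hd.pos (-1 - (m : ℤ) - j)
    have e : (-1 - (m : ℤ) - ((j + 1 : ℕ) : ℤ)) = -1 - (m : ℤ) - j - 1 := by push_cast; ring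
    rw [e]
    linarith

theorem F5c_sum (t : ℝ) (N j : ℕ) (h : N ≤ j) :
    ∑ i ∈ Finset.range j, (if i < N then t else -t) = t * (2 * N - j) := by
  induction j, h using Nat.le_induction with
  | base =>
    rw [Finset.sum_congr rfl (fun i hi => if_pos (Finset.mem_range.1 hi)), Finset.sum_const,
      Finset.card_range, nsmul_eq_mul]
    ring
  | succ j hj ih =>
    rw [Finset.sum_range_succ, ih, if_neg (by omega)]
    push_cast
    ring

theorem F5c_pow (m : ℕ) (h : 2 ≤ m) : 10 * m + 7 ≤ 8 ^ m := by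
  induction m, h using Nat.le_induction with
  | base => norm_num
  | succ m hm ih => rw [pow_succ]; omega

theorem F5c_coef_norm (d : ℤ → ℝ) (v : E) (K : ℤ) (j : ℕ) :
    ‖coef d v K j‖ = Real.exp (∑ i ∈ Finset.range j, -(d (K - 1 - i))) * ‖v (K - j)‖ := by
  unfold coef
  rw [norm_mul, norm_prod, Real.exp_sum]
  congr 1
  apply Finset.prod_congr rfl
  intro i _
  rw [Complex.norm_real, Real.norm_eq_abs]
  unfold w
  exact abs_of_pos (Real.exp_pos _)

theorem F5c_tail {d : ℤ → ℝ} (hd : Steep d) (v : E) (K m j : ℕ) (t : ℝ) (ht : t = d (-1 - (m : ℤ)) / 2)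
    (ht0 : 0 ≤ t) (hj : 2 * (m + K) + 2 ≤ j) :
    ‖coef d v K j‖ * (Real.exp t) ^ j ≤ ‖v‖ * Real.exp (-(2 * t)) := by
  rw [F5c_coef_norm, ← Real.exp_nat_mul]
  have h1 : Real.exp (∑ i ∈ Finset.range j, -(d ((K : ℤ) - 1 - i))) * Real.exp (j * t) ≤ Real.exp (-(2 * t)) := by
    rw [← Real.exp_add]
    apply Real.exp_le_exp.2
    have h2 : ∑ i ∈ Finset.range j, -(d ((K : ℤ) - 1 - i)) + j * t =
        ∑ i ∈ Finset.range j, (t - d ((K : ℤ) - 1 - i)) := by
      simp only [sub_eq_neg_add, Finset.sum_add_distrib, Finset.sum_const, Finset.card_range, nsmul_eq_mul]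
    rw [h2]
    have h3 : ∑ i ∈ Finset.range j, (t - d ((K : ℤ) - 1 - i)) ≤
        ∑ i ∈ Finset.range j, (if i < m + K then t else -t) := by
      apply Finset.sum_le_sum
      intro i _
      split_ifs with hi
      · have := hd.pos ((K : ℤ) - 1 - i)
        linarith
      · have h4 := F5c_mono hd m (i - (m + K))
        have e : (-1 - (m : ℤ) - ((i - (m + K) : ℕ) : ℤ)) = (K : ℤ) - 1 - i := by
          rw [Nat.cast_sub (by omega)]; push_cast; ring
        rw [e] at h4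
        linarith
    rw [F5c_sum t (m + K) j (by omega)] at h3
    refine h3.trans ?_
    have h5 : (2 * ((m + K : ℕ) : ℝ) - j) ≤ -2 := by
      have : ((2 * (m + K) + 2 : ℕ) : ℝ) ≤ j := by exact_mod_cast hj
      push_cast at this ⊢
      linarith
    nlinarith
  have h6 : ‖v ((K : ℤ) - j)‖ ≤ ‖v‖ := lp.norm_apply_le_norm (by norm_num) v _
  calc Real.exp (∑ i ∈ Finset.range j, -(d ((K : ℤ) - 1 - i))) * ‖v ((K : ℤ) - j)‖ * Real.exp (j * t)
      = ‖v ((K : ℤ) - j)‖ * (Real.exp (∑ i ∈ Finset.range j, -(d ((K : ℤ) - 1 - i))) * Real.exp (j * t)) := by ring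
    _ ≤ ‖v‖ * Real.exp (-(2 * t)) := mul_le_mul h6 h1 (by positivity) (norm_nonneg _)

theorem F5c (_h1 : S_F1s) (h5 : S_F5) (h5b : S_F5b) : S_F5c := by
  intro d hd K v hvK hex M m₀
  obtain ⟨n, hn, hvn⟩ := hex
  -- the index q
  obtain ⟨q, hq1, hqn⟩ : ∃ q : ℕ, 1 ≤ q ∧ (K : ℤ) - q = n := ⟨((K : ℤ) - n).toNat, by omega, by omega⟩
  have haq : 0 < ‖coef d v K q‖ := by
    rw [F5c_coef_norm, hqn]
    exact mul_pos (Real.exp_pos _) (norm_pos_iff.2 hvn)
  set aq := ‖coef d v K q‖ with haqdef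
  set m : ℕ := m₀ + K + 3 + ⌈‖v‖⌉₊ + ⌈2 * M / aq⌉₊ with hm
  have hm3 : K + 3 ≤ m := by omega
  have hmv : ‖v‖ ≤ m := by
    have h1 := Nat.le_ceil ‖v‖
    have h2 : ((⌈‖v‖⌉₊ : ℕ) : ℝ) ≤ (m : ℝ) := by exact_mod_cast (by omega)
    linarith
  have hmM : 2 * M / aq ≤ m := by
    have h1 := Nat.le_ceil (2 * M / aq)
    have h2 : ((⌈2 * M / aq⌉₊ : ℕ) : ℝ) ≤ (m : ℝ) := by exact_mod_cast (by omega)
    linarith
  -- the numbers
  obtain ⟨D, hD⟩ : ∃ D, D = d (-(m : ℤ)) := ⟨_, rfl⟩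
  obtain ⟨t, ht⟩ : ∃ t, t = d (-1 - (m : ℤ)) / 2 := ⟨_, rfl⟩
  have hD1 : (8 : ℝ) ^ m ≤ D := by
    have h1 := F5c_dneg hd (m - 1)
    have e1 : m - 1 + 1 = m := by omega
    have e2 : (-1 - ((m - 1 : ℕ) : ℤ)) = -(m : ℤ) := by
      rw [Nat.cast_sub (by omega)]; push_cast; ring
    rw [e1, e2] at h1
    rw [hD]; exact h1
  have hDt : 4 * D ≤ t := by
    have h1 := hd.left (-(m : ℤ)) (by omega)
    have e : (-(m : ℤ) - 1) = -1 - (m : ℤ) := by ring
    rw [e] at h1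
    rw [ht, hD]; linarith
  have h8 : (10 : ℝ) * m + 7 ≤ 8 ^ m := by exact_mod_cast F5c_pow m (by omega)
  have hm0 : (0 : ℝ) ≤ m := Nat.cast_nonneg m
  have hDm : 10 * (m : ℝ) + 7 ≤ D := h8.trans hD1
  have hD0 : 0 ≤ D := by linarith
  have ht0 : 0 ≤ t := by linarith
  -- log 64
  have hl64 : Real.log 64 = 6 * Real.log 2 := by
    rw [show (64 : ℝ) = 2 ^ 6 by norm_num, Real.log_pow]; norm_num
  have hl1 := Real.log_two_lt_d9
  have hl0 := Real.log_two_gt_d9
  have hl64p : 0 < Real.log 64 := by rw [hl64]; linarith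
  obtain ⟨n₀, hn₀⟩ : ∃ n₀ : ℕ, n₀ = ⌈2 * D / Real.log 64⌉₊ := ⟨_, rfl⟩
  have hn₀1 : 2 * D ≤ n₀ * Real.log 64 := by
    have h1 := Nat.le_ceil (2 * D / Real.log 64)
    rw [← hn₀, div_le_iff₀ hl64p] at h1
    exact h1
  have hn₀2 : n₀ * Real.log 64 ≤ 2 * D + Real.log 64 := by
    have h1 := Nat.ceil_lt_add_one (show 0 ≤ 2 * D / Real.log 64 by positivity)
    rw [← hn₀] at h1
    have h2 := mul_le_mul_of_nonneg_right h1.le hl64p.le
    rw [add_mul, div_mul_cancel₀ _ hl64p.ne', one_mul] at h2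
    exact h2
  have hpow64 : ∀ k : ℕ, (64 : ℝ) ^ k = Real.exp (k * Real.log 64) := by
    intro k
    rw [Real.exp_nat_mul, Real.exp_log (by norm_num)]
  obtain ⟨J, hJ⟩ : ∃ J : ℕ, J = 2 * (m + K) + 1 := ⟨_, rfl⟩
  have hKm : (K : ℝ) + 3 ≤ m := by exact_mod_cast hm3
  have hR : (64 : ℝ) ^ (n₀ + J + 1) ≤ Real.exp t := by
    rw [hpow64]
    apply Real.exp_le_exp.2
    have e : (((n₀ + J + 1 : ℕ) : ℕ) : ℝ) * Real.log 64 = n₀ * Real.log 64 + (2 * (m + K) + 2) * Real.log 64 := by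
      rw [hJ]; push_cast; ring
    rw [e]
    have h3 : (2 * ((m : ℝ) + K) + 3) * Real.log 64 ≤ 2 * D := by
      rw [hl64]
      have hK0 : (0 : ℝ) ≤ K := Nat.cast_nonneg K
      nlinarith
    nlinarith
  -- F5
  obtain ⟨n1, hn1, hn1', j₀, hj₀, hdom⟩ := h5 (fun j => ‖coef d v K j‖) (fun j => norm_nonneg _)
    (by
      show ‖coef d v K 0‖ = 1
      rw [F5c_coef_norm]
      simp [hvK]) n₀ J (by
      intro j hj
      have h1 := F5c_tail hd v K m j t ht ht0 (by omega)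
      have h2 : ‖coef d v K j‖ * ((64 : ℝ) ^ (n₀ + J + 1)) ^ j ≤ ‖coef d v K j‖ * (Real.exp t) ^ j :=
        mul_le_mul_of_nonneg_left (pow_le_pow_left₀ (by positivity) hR j) (norm_nonneg _)
      refine lt_of_le_of_lt (h2.trans h1) ?_
      rw [Real.exp_neg, ← div_eq_mul_inv, div_lt_one (Real.exp_pos _)]
      have h3 : 2 * t < Real.exp (2 * t) := by
        have := Real.add_one_le_exp (2 * t)
        linarith
      linarith)
  set r : ℝ := 8 * (64 : ℝ) ^ n1 with hr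
  have hr1 : Real.exp (2 * D) ≤ r := by
    have h1 : (64 : ℝ) ^ n₀ ≤ 64 ^ n1 := pow_le_pow_right₀ (by norm_num) hn1
    have h2 : Real.exp (2 * D) ≤ (64 : ℝ) ^ n₀ := by
      rw [hpow64]; exact Real.exp_le_exp.2 hn₀1
    have h3 : 0 ≤ (64 : ℝ) ^ n1 := by positivity
    rw [hr]; linarith
  refine ⟨m, by omega, r, by rw [← hD]; exact hr1, ?_, ?_⟩
  · rw [← ht]
    refine le_trans ?_ hR
    calc r ≤ 64 * (64 : ℝ) ^ n1 := by
          rw [hr]
          have h3 : 0 ≤ (64 : ℝ) ^ n1 := by positivity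
          linarith
      _ = (64 : ℝ) ^ (n1 + 1) := by rw [pow_succ]; ring
      _ ≤ (64 : ℝ) ^ (n₀ + J + 1) := pow_le_pow_right₀ (by norm_num) (by omega)
  · intro ζ hζ S hS
    have h1 := h5b (fun j => coef d v K j) ζ j₀ (by
      intro j
      rw [hζ]
      exact hdom j) S hS
    rw [hζ] at h1
    have h2 := hdom q
    have hrpos : 0 < r := by rw [hr]; positivity
    have h3 : aq * r ^ q ≤ ‖coef d v K j₀‖ * r ^ j₀ := by
      refine h2.trans ?_
      apply mul_le_of_le_one_right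
      · have : 0 ≤ ‖coef d v K j₀‖ := norm_nonneg _
        positivity
      · exact pow_le_one₀ (by norm_num) (by norm_num)
    have h4 : (m : ℝ) ≤ r := by
      have h5 := Real.add_one_le_exp (2 * D)
      linarith
    have h5 : r ≤ r ^ q := le_self_pow₀ (by
      have h6 := Real.one_le_exp (show 0 ≤ 2 * D by linarith)
      linarith) (by omega)
    have h6 : 2 * M ≤ aq * m := by
      rw [div_le_iff₀ haq] at hmM
      linarith
    have h7 : aq * m ≤ aq * r ^ q := mul_le_mul_of_nonneg_left (h4.trans h5) haq.le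
    linarith

end H94T
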