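import Pool.Agent.H94R5.TA.Spec

/-! STEP 3: `e K ∈ W`. -/

set_option autoImplicit false
open scoped ENNReal Topology
open MeasureTheory Filter

noncomputable section
namespace H94T

namespace F6aux

theorem res_mono {S A : Set ℤ} (h : S ⊆ A) (y : E) : ‖res S y‖ ≤ ‖res A y‖ := by
  refine lp.norm_mono (by norm_num) fun n => ?_
  rw [res_apply, res_apply]
  by_cases hn : n ∈ S
  · rw [Set.indicator_of_mem hn, Set.indicator_of_mem (h hn)]
  · rw [Set.indicator_of_notMem hn, norm_zero]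
    exact norm_nonneg _

theorem res_union {S A B : Set ℤ} (h : S ⊆ A ∪ B) (y : E) :
    ‖res S y‖ ≤ ‖res A y‖ + ‖res B y‖ := by
  have e1 : res S y = res (S ∩ A) y + res (S \ A) y := by
    ext n
    rw [lp.coeFn_add, Pi.add_apply, res_apply, res_apply, res_apply]
    by_cases hn : n ∈ S
    · by_cases ha : n ∈ A
      · rw [Set.indicator_of_mem hn, Set.indicator_of_mem (Set.mem_inter hn ha),
          Set.indicator_of_notMem (fun h => h.2 ha), add_zero]
      · rw [Set.indicator_of_mem hn, Set.indicator_of_notMem (fun h => ha h.2),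
          Set.indicator_of_mem (Set.mem_sdiff_of_mem hn ha), zero_add]
    · rw [Set.indicator_of_notMem hn, Set.indicator_of_notMem (fun h => hn h.1),
          Set.indicator_of_notMem (fun h => hn h.1), add_zero]
  rw [e1]
  refine (norm_add_le _ _).trans (add_le_add (res_mono Set.inter_subset_right y)
    (res_mono ?_ y))
  intro n hn
  exact (h hn.1).resolve_left hn.2

variable {d : ℤ → ℝ}

theorem left_grow (hd : Steep d) (m : ℕ) : (8 : ℝ) ^ (m + 1) ≤ d (-((m : ℤ) + 1)) := by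
  induction m with
  | zero => simpa using hd.pos (-1)
  | succ m ih =>
    have h1 := hd.left (-((m : ℤ) + 1)) (by omega)
    have e1 : (-((m : ℤ) + 1)) - 1 = -(((m + 1 : ℕ) : ℤ) + 1) := by push_cast; ring
    rw [e1] at h1
    calc (8 : ℝ) ^ (m + 1 + 1) = 8 * 8 ^ (m + 1) := by rw [pow_succ']
      _ ≤ 8 * d (-((m : ℤ) + 1)) := by linarith
      _ ≤ _ := h1

/-- left monotonicity -/
theorem left_mono (hd : Steep d) (a : ℤ) (ha : a ≤ -1) (j : ℕ) : d a ≤ d (a - j) := by
  induction j with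
  | zero => simp
  | succ j ih =>
    have h1 := hd.left (a - j) (by omega)
    have h2 := hd.pos (a - j)
    have e1 : a - ((j + 1 : ℕ) : ℤ) = a - j - 1 := by push_cast; ring
    rw [e1]
    linarith

theorem right_mono (hd : Steep d) (a : ℤ) (ha : 0 ≤ a) (j : ℕ) : d a ≤ d (a + j) := by
  induction j with
  | zero => simp
  | succ j ih =>
    have h1 := hd.right (a + j) (by omega)
    have h2 := hd.pos (a + j)
    have e1 : a + ((j + 1 : ℕ) : ℤ) = a + j + 1 := by push_cast; ring
    rw [e1]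
    linarith

end F6aux

open F6aux in
theorem F6 (hF1 : S_F1) (hM : S_F3M) (hL : S_F3L) (h5c : S_F5c) (h6A : S_F6A) : S_F6 := by
  intro d hd W hWc hWi K v hvW hvK hv0
  by_cases hex : ∃ n : ℤ, n < K ∧ v n ≠ 0
  swap
  · push Not at hex
    have : v = e K := by
      ext n
      rw [e_apply]
      rcases lt_trichotomy n (K : ℤ) with h | h | h
      · rw [if_neg (by omega)]
        exact hex n h
      · rw [if_pos h, h, hvK]
      · rw [if_neg (by omega)]
        exact hv0 n h
    rw [← this]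
    exact hvW
  -- reduction to approximation
  have key : ∀ ε : ℝ, 0 < ε → ∃ u ∈ W, ‖u - e K‖ ≤ ε := by
    intro ε hε
    set M : ℝ := 8 * ‖v‖ / ε + (1 + ‖v‖) with hMdef
    have hvn : 0 ≤ ‖v‖ := norm_nonneg v
    have hM0 : 0 < M := by positivity
    obtain ⟨m₀, hm₀⟩ := exists_nat_ge (max (16 / ε) (d K))
    obtain ⟨m, hm, r, hr1, hr2, hbig⟩ := h5c d hd K v hvK hex M (m₀ + 1)
    have hm1 : 1 ≤ m := by omega
    obtain ⟨m', rfl⟩ : ∃ m', m = m' + 1 := ⟨m - 1, by omega⟩
    have hdm : (m' : ℝ) + 1 ≤ d (-((m' + 1 : ℕ) : ℤ)) := by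
      have h1 := left_grow hd m'
      have h2 : ((m' + 1 : ℕ) : ℝ) < (8 : ℝ) ^ (m' + 1) := by
        exact_mod_cast Nat.lt_pow_self (by norm_num)
      push_cast at h2 ⊢
      linarith
    have hmr : (m₀ : ℝ) ≤ m' := by
      have : m₀ ≤ m' := by omega
      exact_mod_cast this
    have hdK : d K ≤ d (-((m' + 1 : ℕ) : ℤ)) := by
      have := (le_max_right (16 / ε) (d K)).trans hm₀
      linarith
    have hdε : 16 / ε ≤ d (-((m' + 1 : ℕ) : ℤ)) := by
      have := (le_max_left (16 / ε) (d K)).trans hm₀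
      linarith
    set D : ℝ := d (-((m' + 1 : ℕ) : ℤ)) with hD
    have hD8 : 8 ≤ D := hd.pos _
    set L : ℝ := Real.exp D with hLdef
    have hLD : D + 1 ≤ L := Real.add_one_le_exp D
    have hL2 : 2 ≤ L := by linarith
    have hL16 : 16 / ε ≤ L := by linarith
    have hrpos : 0 < r := lt_of_lt_of_le (Real.exp_pos _) hr1
    choose y hy1 hy2 hy3 using fun ζ : ℂ => hF1 d hd v ζ
    set B : ℝ := 2 * ‖v‖ / M + 2 / L * (1 + ‖v‖ / M) with hB
    have hyK : ∀ ζ : ℂ, ‖ζ‖ = r → M ≤ ‖y ζ K‖ := fun ζ hζ => hbig ζ hζ _ (hy2 ζ K)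
    have hmain : ∀ ζ : ℂ, ‖ζ‖ = r → Rec d v ζ (y ζ) ∧ y ζ K ≠ 0 ∧
        ‖res {n | n < K} (y ζ)‖ ≤ B * ‖y ζ K‖ := by
      intro ζ hζ
      have hK := hyK ζ hζ
      refine ⟨hy1 ζ, ?_, ?_⟩
      · intro h0
        rw [h0, norm_zero] at hK
        linarith
      -- the left part
      have hleft : ‖res {n | n ≤ -((m' + 1 : ℕ) : ℤ)} (y ζ)‖ ≤ 2 * ‖v‖ := by
        refine hL d v ζ (y ζ) _ (hy1 ζ) ?_
        intro n hn
        rw [hζ]
        have h1 : d (-1 - ((m' + 1 : ℕ) : ℤ)) ≤ d n := by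
          have := left_mono hd (-1 - ((m' + 1 : ℕ) : ℤ)) (by omega)
            (-1 - ((m' + 1 : ℕ) : ℤ) - n).toNat
          have e1 : -1 - ((m' + 1 : ℕ) : ℤ) - ((-1 - ((m' + 1 : ℕ) : ℤ) - n).toNat : ℤ) = n := by
            omega
          rw [e1] at this
          exact this
        have h2 : 8 ≤ d (-1 - ((m' + 1 : ℕ) : ℤ)) := hd.pos _
        calc r * w d n ≤ Real.exp (d (-1 - ((m' + 1 : ℕ) : ℤ)) / 2) * w d n :=
              mul_le_mul_of_nonneg_right hr2 (Real.exp_pos _).le
          _ = Real.exp (d (-1 - ((m' + 1 : ℕ) : ℤ)) / 2 + -(d n)) := by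
              unfold w
              rw [← Real.exp_add]
          _ ≤ Real.exp (-1) := Real.exp_le_exp.2 (by linarith)
          _ ≤ 1 / 2 := by
              rw [Real.exp_neg, one_div]
              apply inv_anti₀ (by norm_num)
              have := Real.add_one_le_exp (1 : ℝ)
              linarith
      -- the middle part
      have hmid : ‖res {n | -((m' + 1 : ℕ) : ℤ) ≤ n ∧ n < K} (y ζ)‖ ≤
          2 / L * (‖y ζ K‖ + ‖v‖) := by
        refine hM d v ζ (y ζ) _ K L (hy1 ζ) hL2 ?_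
        intro n hn1 hn2
        rw [hζ]
        have h1 : d n ≤ D := by
          by_cases hn0 : 0 ≤ n
          · refine le_trans ?_ hdK
            have := right_mono hd n hn0 ((K : ℤ) - n).toNat
            have e1 : n + (((K : ℤ) - n).toNat : ℤ) = K := by omega
            rw [e1] at this
            exact this
          · have := left_mono hd n (by omega) (n + ((m' + 1 : ℕ) : ℤ)).toNat
            have e1 : n - ((n + ((m' + 1 : ℕ) : ℤ)).toNat : ℤ) = -((m' + 1 : ℕ) : ℤ) := by omega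
            rw [e1] at this
            exact this
        calc L = Real.exp (2 * D + -D) := by rw [hLdef]; congr 1; ring
          _ = Real.exp (2 * D) * Real.exp (-D) := Real.exp_add _ _
          _ ≤ r * w d n := by
              refine mul_le_mul hr1 ?_ (Real.exp_pos _).le hrpos.le
              unfold w
              exact Real.exp_le_exp.2 (by linarith)
      have hun : ‖res {n | n < K} (y ζ)‖ ≤ ‖res {n | n ≤ -((m' + 1 : ℕ) : ℤ)} (y ζ)‖ +
          ‖res {n | -((m' + 1 : ℕ) : ℤ) ≤ n ∧ n < K} (y ζ)‖ := by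
        apply res_union
        intro n hn
        rcases le_total n (-((m' + 1 : ℕ) : ℤ)) with h | h
        · exact Or.inl h
        · exact Or.inr ⟨h, hn⟩
      have hvM : ‖v‖ ≤ ‖v‖ / M * ‖y ζ K‖ := by
        rw [div_mul_eq_mul_div, le_div_iff₀ hM0]
        exact mul_le_mul_of_nonneg_left hK hvn
      have hLpos : 0 < L := Real.exp_pos _
      have h2L : 0 ≤ 2 / L := by positivity
      calc ‖res {n | n < K} (y ζ)‖ ≤ 2 * ‖v‖ + 2 / L * (‖y ζ K‖ + ‖v‖) := by linarith
        _ ≤ 2 * (‖v‖ / M * ‖y ζ K‖) + 2 / L * (‖y ζ K‖ + ‖v‖ / M * ‖y ζ K‖) := by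
            gcongr
        _ = B * ‖y ζ K‖ := by rw [hB]; ring
    obtain ⟨u, hu, hu2⟩ := h6A d v K hvK hv0 r B y hrpos hmain W
      (fun ζ _ => hy3 ζ W hWc hWi hvW) (ε / 2) (by positivity)
    refine ⟨u, hu, hu2.trans ?_⟩
    have hb1 : 2 * ‖v‖ / M ≤ ε / 4 := by
      rw [div_le_iff₀ hM0, hMdef]
      have : ε / 4 * (8 * ‖v‖ / ε + (1 + ‖v‖)) = 2 * ‖v‖ + ε / 4 * (1 + ‖v‖) := by
        field_simp
        ring
      rw [this]
      have : 0 ≤ ε / 4 * (1 + ‖v‖) := by positivity
      linarith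
    have hb2 : ‖v‖ / M ≤ 1 := by
      rw [div_le_one hM0, hMdef]
      have : 0 ≤ 8 * ‖v‖ / ε := by positivity
      linarith
    have hLpos : 0 < L := Real.exp_pos _
    have hb3 : 2 / L * (1 + ‖v‖ / M) ≤ ε / 4 := by
      have h1 : 2 / L * (1 + ‖v‖ / M) ≤ 2 / L * 2 := by
        apply mul_le_mul_of_nonneg_left _ (by positivity)
        linarith
      have h2 : 2 / L * 2 = 4 / L := by ring
      have h3 : 4 / L ≤ ε / 4 := by
        rw [div_le_iff₀ hLpos]
        rw [div_le_iff₀ hε] at hL16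
        linarith
      linarith
    rw [hB]
    linarith
  have hcl : e K ∈ closure (W : Set E) := by
    rw [Metric.mem_closure_iff]
    intro ε hε
    obtain ⟨u, hu, hu2⟩ := key (ε / 2) (by positivity)
    refine ⟨u, hu, ?_⟩
    rw [dist_comm, dist_eq_norm]
    linarith
  rw [hWc.closure_eq] at hcl
  exact hcl

end H94T
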