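import Pool.Agent.H94R5.TA.Spec

set_option autoImplicit false
open scoped ENNReal Topology
open MeasureTheory Filter

noncomputable section
namespace H94T

namespace FIB0x

open TopologicalSpace in
theorem sepE : SeparableSpace E := by
  rw [← isSeparable_univ_iff]
  have h1 : IsSeparable ((Submodule.span ℂ (Set.range fun n : ℤ =>
      (lp.single 2 n (1 : ℂ) : E)) : Submodule ℂ E) : Set E) :=
    (Set.countable_range _).isSeparable.span
  refine h1.closure.mono ?_
  intro f _
  have h2 := lp.hasSum_single (E := fun _ : ℤ => ℂ) (p := 2) (by norm_num) f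
  refine mem_closure_of_tendsto h2 (Eventually.of_forall fun s => ?_)
  refine Submodule.sum_mem _ (fun i _ => ?_)
  have h3 : (lp.single 2 i (f i) : E) = (f i) • (lp.single 2 i (1 : ℂ) : E) := by
    rw [← lp.single_smul]
    simp
  rw [h3]
  exact Submodule.smul_mem _ _ (Submodule.subset_span ⟨i, rfl⟩)

end FIB0x

open TopologicalSpace in
theorem FIB0 : S_FIB0 := by
  intro V
  have := FIB0x.sepE
  have : Fact ((1 : ℝ≥0∞) ≤ 2) := ⟨by norm_num⟩
  have : Fact ((2 : ℝ≥0∞) ≠ ∞) := ⟨by norm_num⟩
  have : SecondCountableTopology H := inferInstance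
  have : Nonempty V := ⟨0⟩
  refine ⟨fun k => (denseSeq V k : H), fun k => (denseSeq V k).2, ?_⟩
  intro x hx
  have h1 : (⟨x, hx⟩ : V) ∈ closure (Set.range (denseSeq V)) := denseRange_denseSeq V _
  have h2 := image_closure_subset_closure_image (f := fun y : V => (y : H))
    continuous_subtype_val ⟨_, h1, rfl⟩
  rw [← Set.range_comp] at h2
  exact h2

end H94T
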