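import Pool.Agent.H94R5.TA.Spec

/-! Task FIB1: pointwise closure. -/

set_option autoImplicit false
open scoped ENNReal
open MeasureTheory

namespace H94T

theorem FIB1 : S_FIB1 := by
  unfold S_FIB1
  intro v u hu
  obtain ⟨s, hs, hlim⟩ := mem_closure_iff_seq_limit.1 hu
  have h1 := tendstoInMeasure_of_tendsto_Lp hlim
  obtain ⟨ns, _, h2⟩ := h1.exists_seq_tendsto_ae
  filter_upwards [h2] with x hx
  refine mem_closure_of_tendsto hx (Filter.Eventually.of_forall fun i => ?_)
  obtain ⟨k, hk⟩ := hs (ns i)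
  exact ⟨k, by simp only [hk]⟩

end H94T
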