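import Pool.Agent.H94R5.TA.Spec

set_option autoImplicit false
open scoped ENNReal Topology
open MeasureTheory Filter

noncomputable section
namespace H94T

theorem FIB2 (h1 : S_FIB1) : S_FIB2 := by
  classical
  intro V v hv hV
  have hzero : ∀ᵐ x ∂mu, (0 : E) ∈ closure (Set.range fun k => (v k : G → E) x) := by
    have h := h1 v 0 (hV V.zero_mem)
    filter_upwards [h, Lp.coeFn_zero E 2 mu] with x hx h0
    rw [h0] at hx
    simpa using hx
  have hadd : ∀ᵐ x ∂mu, ∀ k l : ℕ, (v k : G → E) x + (v l : G → E) x ∈
      closure (Set.range fun k => (v k : G → E) x) := by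
    rw [ae_all_iff]
    intro k
    rw [ae_all_iff]
    intro l
    have h := h1 v (v k + v l) (hV (V.add_mem (hv k) (hv l)))
    filter_upwards [h, Lp.coeFn_add (v k) (v l)] with x hx h0
    rw [h0] at hx
    simpa using hx
  have hsmul : ∀ᵐ x ∂mu, ∀ k m : ℕ, (TopologicalSpace.denseSeq ℂ m) • (v k : G → E) x ∈
      closure (Set.range fun k => (v k : G → E) x) := by
    rw [ae_all_iff]
    intro k
    rw [ae_all_iff]
    intro m
    have h := h1 v ((TopologicalSpace.denseSeq ℂ m) • v k) (hV (V.smul_mem _ (hv k)))
    filter_upwards [h, Lp.coeFn_smul (TopologicalSpace.denseSeq ℂ m) (v k)] with x hx h0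
    rw [h0] at hx
    simpa using hx
  have key : ∀ᵐ x ∂mu, ∃ M : Submodule ℂ E,
      (M : Set E) = closure (Set.range fun k => (v k : G → E) x) := by
    filter_upwards [hzero, hadd, hsmul] with x h0 ha hs
    refine ⟨{ carrier := closure (Set.range fun k => (v k : G → E) x)
              add_mem' := ?_
              zero_mem' := h0
              smul_mem' := ?_ }, rfl⟩
    · intro a b haa hbb
      have := map_mem_closure₂ (f := fun a b : E => a + b)
        (u := closure (Set.range fun k => (v k : G → E) x)) continuous_add haa hbb ?_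
      · rwa [closure_closure] at this
      · rintro _ ⟨k, rfl⟩ _ ⟨l, rfl⟩
        exact ha k l
    · intro q a haa
      have hq : q ∈ closure (Set.range (TopologicalSpace.denseSeq ℂ)) :=
        (TopologicalSpace.denseRange_denseSeq ℂ) q
      have := map_mem_closure₂ (f := fun (a : ℂ) (b : E) => a • b)
        (u := closure (Set.range fun k => (v k : G → E) x)) continuous_smul hq haa ?_
      · rwa [closure_closure] at this
      · rintro _ ⟨m, rfl⟩ _ ⟨k, rfl⟩
        exact hs k m
  refine ⟨fun x => if h : ∃ M : Submodule ℂ E,
      (M : Set E) = closure (Set.range fun k => (v k : G → E) x) then h.choose else ⊥, ?_, ?_⟩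
  · intro x
    by_cases h : ∃ M : Submodule ℂ E,
      (M : Set E) = closure (Set.range fun k => (v k : G → E) x)
    · simp only [dif_pos h]
      rw [h.choose_spec]
      exact isClosed_closure
    · simp only [dif_neg h]
      rw [Submodule.bot_coe]
      exact isClosed_singleton
  · filter_upwards [key] with x h
    simp only [dif_pos h]
    exact h.choose_spec

end H94T
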