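import Pool.Agent.H94R5.TA.Spec

/-! Task FIB3: if all fibres of `V` are everything then `V = ⊤`. -/

set_option autoImplicit false
open scoped ENNReal Topology
open MeasureTheory Filter

noncomputable section
namespace H94T

theorem FIB3 : S_FIB3 := by
  intro V v hV hv _ hind hall
  have : CompleteSpace V := hV.completeSpace_coe
  rw [← Submodule.orthogonal_eq_bot_iff]
  rw [Submodule.eq_bot_iff]
  intro q hq
  -- the pointwise inner products vanish
  have key : ∀ k : ℕ, ∀ᵐ x ∂mu, inner ℂ ((v k : G → E) x) ((q : G → E) x) = (0 : ℂ) := by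
    intro k
    have hint : Integrable (fun x => inner ℂ ((v k : G → E) x) ((q : G → E) x)) mu :=
      L2.integrable_inner (v k) q
    refine hint.ae_eq_zero_of_forall_setIntegral_eq_zero fun D hD _ => ?_
    have hmem : MemLp (D.indicator (v k : G → E)) 2 mu := (Lp.memLp (v k)).indicator hD
    have hh : (hmem.toLp _ : H) ∈ V := hind (v k) (hv k) D hD _ hmem.coeFn_toLp
    have h0 : inner ℂ (hmem.toLp _ : H) q = (0 : ℂ) := (Submodule.mem_orthogonal V q).1 hq _ hh
    rw [L2.inner_def] at h0
    rw [← h0, ← integral_indicator hD]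
    refine integral_congr_ae ?_
    filter_upwards [hmem.coeFn_toLp] with x hx
    rw [hx]
    by_cases hxD : x ∈ D
    · rw [Set.indicator_of_mem hxD, Set.indicator_of_mem hxD]
    · rw [Set.indicator_of_notMem hxD, Set.indicator_of_notMem hxD, inner_zero_left]
  have key' : ∀ᵐ x ∂mu, ∀ k : ℕ, inner ℂ ((v k : G → E) x) ((q : G → E) x) = (0 : ℂ) :=
    ae_all_iff.2 key
  rw [Lp.eq_zero_iff_ae_eq_zero]
  filter_upwards [key', hall] with x hx hx'
  have hcl : IsClosed {y : E | inner ℂ y ((q : G → E) x) = (0 : ℂ)} :=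
    isClosed_eq (continuous_id.inner continuous_const) continuous_const
  have hsub : closure (Set.range fun k => (v k : G → E) x) ⊆
      {y : E | inner ℂ y ((q : G → E) x) = (0 : ℂ)} := by
    apply closure_minimal _ hcl
    rintro _ ⟨k, rfl⟩
    exact hx k
  rw [hx'] at hsub
  have := hsub (Set.mem_univ ((q : G → E) x))
  exact inner_self_eq_zero.1 this

end H94T
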