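import Pool.Agent.H94R5.TA.Spec

set_option autoImplicit false
open scoped ENNReal Topology
open MeasureTheory Filter

noncomputable section
namespace H94T

theorem FIB5 : S_FIB5 := by
  intro v a
  have h1 : {x | a ∈ closure (Set.range fun k => (v k : G → E) x)} =
      ⋂ n : ℕ, ⋃ k : ℕ, {x | dist a ((v k : G → E) x) < 1 / ((n : ℝ) + 1)} := by
    ext x
    simp only [Set.mem_ofPred_eq, Set.mem_iInter, Set.mem_iUnion, Metric.mem_closure_iff,
      Set.mem_range, exists_exists_eq_and]
    constructor
    · intro h n
      exact h (1 / ((n : ℝ) + 1)) (by positivity)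
    · intro h ε hε
      obtain ⟨n, hn⟩ := exists_nat_one_div_lt hε
      obtain ⟨k, hk⟩ := h n
      exact ⟨k, hk.trans hn⟩
  rw [h1]
  apply NullMeasurableSet.iInter
  intro n
  apply NullMeasurableSet.iUnion
  intro k
  have h2 : AEStronglyMeasurable ((v k : G → E)) mu := Lp.aestronglyMeasurable (v k)
  have h3 : AEMeasurable (fun x => dist a ((v k : G → E) x)) mu :=
    (aestronglyMeasurable_const.dist h2).aemeasurable
  exact nullMeasurableSet_lt h3 aemeasurable_const

end H94T
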