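import Pool.Agent.H94R5.TA.Spec

set_option autoImplicit false
open scoped ENNReal Topology InnerProductSpace
open MeasureTheory Filter

noncomputable section

namespace H94T

theorem fin_abs {H : Type} [NormedAddCommGroup H] [InnerProductSpace ℂ H] [CompleteSpace H]
    (T : H →L[ℂ] H)
    (hT : ∀ V : Submodule ℂ H, IsClosed (V : Set H) →
      (∀ A : H →L[ℂ] H, A * T = T * A → ∀ x ∈ V, A x ∈ V) → V = ⊥ ∨ V = ⊤)
    (f : H) (hf : ‖T (T f)‖ * ‖f‖ < ‖T f‖ ^ 2) :
    ¬ (∀ (H : Type) [NormedAddCommGroup H] [InnerProductSpace ℂ H] [CompleteSpace H]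
      (B : Subalgebra ℂ (H →L[ℂ] H)),
      (∀ T : H →L[ℂ] H,
        (∀ (F : Finset (H × H)) (ε : ℝ), 0 < ε →
          ∃ S ∈ B, ∀ p ∈ F, ‖⟪(T - S) p.1, p.2⟫_ℂ‖ < ε) → T ∈ B) →
      (∀ M : Submodule ℂ H, IsClosed (M : Set H) →
        (∀ A ∈ B, ∀ x ∈ M, A x ∈ M) →
        (∀ A ∈ B, ∀ x ∈ Submodule.orthogonal M, A x ∈ Submodule.orthogonal M)) →
      ∀ A ∈ B, ContinuousLinearMap.adjoint A ∈ B) := by
  intro h
  have hB : ∀ S : H →L[ℂ] H, S ∈ Subalgebra.centralizer ℂ ({T} : Set (H →L[ℂ] H)) ↔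
      T * S = S * T := by
    intro S
    rw [Subalgebra.mem_centralizer_iff]
    simp
  have key := h H (Subalgebra.centralizer ℂ ({T} : Set (H →L[ℂ] H))) ?_ ?_ T ((hB T).2 rfl)
  · rw [hB] at key
    have hn : ‖(ContinuousLinearMap.adjoint T) (T f)‖ = ‖T (T f)‖ := by
      have h1 : ‖(ContinuousLinearMap.adjoint T) (T f)‖ ^ 2 = ‖T (T f)‖ ^ 2 := by
        have e1 : (⟪(ContinuousLinearMap.adjoint T) (T f), (ContinuousLinearMap.adjoint T) (T f)⟫_ℂ) =
            ⟪T (T f), T (T f)⟫_ℂ := by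
          rw [ContinuousLinearMap.adjoint_inner_left]
          have e2 : T ((ContinuousLinearMap.adjoint T) (T f)) =
              (ContinuousLinearMap.adjoint T) (T (T f)) := by
            have := congrArg (fun A : H →L[ℂ] H => A (T f)) key
            simpa using this
          rw [e2, ContinuousLinearMap.adjoint_inner_right]
        rw [inner_self_eq_norm_sq_to_K, inner_self_eq_norm_sq_to_K] at e1
        exact_mod_cast e1
      exact (sq_eq_sq₀ (norm_nonneg _) (norm_nonneg _)).1 h1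
    have h2 : ‖T f‖ ^ 2 ≤ ‖T (T f)‖ * ‖f‖ := by
      rw [← hn]
      have e3 : (⟪T f, T f⟫_ℂ) = ⟪(ContinuousLinearMap.adjoint T) (T f), f⟫_ℂ := by
        rw [ContinuousLinearMap.adjoint_inner_left]
      have e4 : ‖(⟪T f, T f⟫_ℂ)‖ = ‖T f‖ ^ 2 := by
        rw [inner_self_eq_norm_sq_to_K]
        simp
      rw [← e4, e3]
      exact norm_inner_le_norm _ _
    exact absurd h2 (not_le.2 hf)
  · intro T' hT'
    rw [hB]
    ext x
    refine ext_inner_right ℂ fun y => ?_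
    by_contra hne
    have hpos : 0 < ‖⟪(T * T') x, y⟫_ℂ - ⟪(T' * T) x, y⟫_ℂ‖ := norm_pos_iff.2 (sub_ne_zero.2 hne)
    classical
    obtain ⟨S, hS, hF⟩ := hT' {(T x, y), (x, (ContinuousLinearMap.adjoint T) y)}
      (‖⟪(T * T') x, y⟫_ℂ - ⟪(T' * T) x, y⟫_ℂ‖ / 2) (by positivity)
    have a1 := hF (T x, y) (by simp)
    have a2 := hF (x, (ContinuousLinearMap.adjoint T) y) (by simp)
    simp only at a1 a2
    rw [ContinuousLinearMap.adjoint_inner_right] at a2
    rw [hB] at hS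
    have hS' : T (S x) = S (T x) := by
      have := congrArg (fun A : H →L[ℂ] H => A x) hS
      simpa using this
    have e5 : ⟪(T * T') x, y⟫_ℂ - ⟪(T' * T) x, y⟫_ℂ =
        ⟪T ((T' - S) x), y⟫_ℂ - ⟪(T' - S) (T x), y⟫_ℂ := by
      simp only [mul_apply_eq_comp, sub_apply, map_sub,
        inner_sub_left, hS']
      ring
    have e6 : ‖⟪(T * T') x, y⟫_ℂ - ⟪(T' * T) x, y⟫_ℂ‖ ≤
        ‖⟪T ((T' - S) x), y⟫_ℂ‖ + ‖⟪(T' - S) (T x), y⟫_ℂ‖ := by
      rw [e5]; exact norm_sub_le _ _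
    linarith
  · intro M hM hinv A hA x hx
    rcases hT M hM (fun A' hA' => hinv A' ((hB A').2 hA'.symm)) with h0 | h0
    · subst h0
      simp
    · subst h0
      simp at hx
      subst hx
      simp

theorem FIN (h : S_MAIN) : S_FIN := by
  obtain ⟨T, h1, f, hf⟩ := h
  exact fin_abs T (fun V hV hinv => h1 V hV fun A hA x hx => hinv A hA x hx) f hf

end H94T
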