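import Pool.Agent.H94R5.TA.Spec

set_option autoImplicit false
open MeasureTheory

namespace H94T

theorem GRP1 : S_GRP1 := by
  intro j
  unfold g
  exact measurePreserving_add_right mu (Pi.single j 1)

end H94T
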