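import Pool.Agent.H94R5.TA.Spec

/-! GRP2: `μ(D ∩ g_j⁻¹ D) → μ(D)` (helper747). -/

namespace H94T

open MeasureTheory Filter Topology Set
open scoped ENNReal Pointwise

theorem GRP2_gen {G : Type} [AddCommGroup G] [TopologicalSpace G] [IsTopologicalAddGroup G]
    [CompactSpace G] [T2Space G] [MeasurableSpace G] [BorelSpace G] (μ : Measure G)
    [IsFiniteMeasure μ] [μ.IsAddLeftInvariant] [μ.InnerRegularCompactLTTop] (g : ℕ → G)
    (hg : Tendsto g atTop (𝓝 0)) (D : Set G) (hD : MeasurableSet D) :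
    Tendsto (fun j => μ (D ∩ {x | g j + x ∈ D})) atTop (𝓝 (μ D)) := by
  rw [ENNReal.tendsto_nhds (measure_ne_top μ D)]
  intro ε hε
  have hε2 : ε / 2 ≠ 0 := (ENNReal.half_pos hε.ne').ne'
  obtain ⟨K, hKD, hK, hKc, hlt⟩ := hD.exists_isCompact_isClosed_lt_add (measure_ne_top μ D) hε2
  have h1 := (tendsto_measure_vadd_sdiff_isCompact_isClosed (μ := μ) hK hKc).comp hg
  have h2 : ∀ᶠ j in atTop, μ ((g j +ᵥ K) \ K) < ε / 2 :=
    h1.eventually (gt_mem_nhds (ENNReal.half_pos hε.ne'))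
  filter_upwards [h2] with j hj
  constructor
  · rw [tsub_le_iff_right]
    have e1 : μ (K \ (-(g j) +ᵥ K)) = μ ((g j +ᵥ K) \ K) := by
      rw [← measure_vadd μ (g j) (K \ (-(g j) +ᵥ K)), Set.vadd_set_sdiff, vadd_vadd,
        add_neg_cancel, zero_vadd]
    have e2 : K ∩ (-(g j) +ᵥ K) ⊆ D ∩ {x | g j + x ∈ D} := by
      rintro x ⟨hx1, hx2⟩
      refine ⟨hKD hx1, ?_⟩
      obtain ⟨y, hy, rfl⟩ := hx2
      show g j + (-(g j) + y) ∈ D
      rw [add_neg_cancel_left]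
      exact hKD hy
    have e3 : μ K ≤ μ (K ∩ (-(g j) +ᵥ K)) + μ (K \ (-(g j) +ᵥ K)) := by
      conv_lhs => rw [← Set.inter_union_sdiff K (-(g j) +ᵥ K)]
      exact measure_union_le _ _
    calc μ D ≤ μ K + ε / 2 := hlt.le
      _ ≤ (μ (K ∩ (-(g j) +ᵥ K)) + μ (K \ (-(g j) +ᵥ K))) + ε / 2 := by gcongr
      _ ≤ (μ (D ∩ {x | g j + x ∈ D}) + ε / 2) + ε / 2 := by
        rw [e1]
        gcongr
      _ = μ (D ∩ {x | g j + x ∈ D}) + ε := by rw [add_assoc, ENNReal.add_halves]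
  · exact (measure_mono Set.inter_subset_left).trans le_self_add

theorem GRP2 : S_GRP2 := by
  intro D hD
  have hg : Tendsto (fun j : ℕ => (Pi.single j 1 : G)) atTop (𝓝 0) := by
    rw [tendsto_pi_nhds]
    intro i
    refine tendsto_const_nhds.congr' ?_
    filter_upwards [eventually_gt_atTop i] with j hj
    rw [Pi.single_eq_of_ne (ne_of_lt hj)]
    rfl
  have h := GRP2_gen mu (fun j : ℕ => (Pi.single j 1 : G)) hg D hD
  refine h.congr fun j => ?_
  congr 1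
  ext x
  simp only [mem_inter_iff, mem_preimage, g, add_comm x]
  rfl

end H94T
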