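import Pool.Agent.H94R5.TA.Spec

set_option autoImplicit false
open scoped ENNReal Topology
open MeasureTheory Filter
open scoped Pointwise

noncomputable section
namespace H94T

/-- the partial sums of an element of the group -/
theorem GRP3_tendsto (x : G) :
    Tendsto (fun n : ℕ => ∑ i ∈ Finset.range n, (Pi.single i (x i) : G)) atTop (𝓝 x) := by
  rw [tendsto_pi_nhds]
  intro k
  refine tendsto_const_nhds.congr' ?_
  filter_upwards [eventually_gt_atTop k] with n hn
  rw [Finset.sum_apply, Finset.sum_eq_single k]
  · simp
  · intro i _ hik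
    exact Pi.single_eq_of_ne (Ne.symm hik) _
  · intro h
    exact absurd (Finset.mem_range.2 hn) h

theorem GRP3 : S_GRP3 := by
  intro D hD hinv
  have : (mu).Regular := by unfold mu; infer_instance
  have hst : ∀ j : ℕ, (Pi.single j 1 : G) ∈ AddAction.aestabilizer G mu D := by
    intro j
    have h1 := hinv j
    have h2 : (g j) ⁻¹' D = (Pi.single j 1 : G) +ᵥ D := by
      ext x
      rw [Set.mem_preimage, Set.mem_vadd_set_iff_neg_vadd_mem]
      have h3 : -(Pi.single j 1 : G) +ᵥ x = g j x := by
        unfold g
        rw [vadd_eq_add, add_comm]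
        congr 1
        ext i
        rw [Pi.neg_apply, ZMod.neg_eq_self_mod_two]
      rw [h3]
    rw [h2] at h1
    exact h1
  have hd : Dense (AddAction.aestabilizer G mu D : Set G) := by
    intro x
    refine mem_closure_of_tendsto (GRP3_tendsto x) (Eventually.of_forall fun n => ?_)
    refine AddSubgroup.sum_mem _ fun i _ => ?_
    have h0 : (Pi.single i (x i) : G) = (x i).val • (Pi.single i 1 : G) := by
      rw [← Pi.single_smul]
      simp
    rw [h0]
    exact AddSubgroup.nsmul_mem _ (hst i) _
  have hc := aeconst_of_dense_aestabilizer_vadd hD.nullMeasurableSet hd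
  rw [eventuallyConst_set'] at hc
  rcases hc with h | h
  · left
    exact ae_eq_empty.1 h
  · right
    exact ae_eq_univ.1 h

end H94T
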