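import Pool.Agent.H94R5.TA.Spec

/-! Task NN (helper439): `T` is not normal. -/

set_option autoImplicit false
open scoped ENNReal Topology
open MeasureTheory Filter

noncomputable section
namespace H94T

namespace TaskNN

theorem inf_p (x : G) : (setOf (p x)).Infinite := by
  apply Set.infinite_of_injective_forall_mem (f := fun k : ℕ => 5 * k + 2)
  · intro a b h
    simp only at h
    omega
  · intro k
    exact Or.inr (by omega)

theorem nth_zero (x : G) (hx : x 0 = 1) : Nat.nth (p x) 0 = 0 :=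
  Nat.nth_zero_of_zero (Or.inl ⟨by norm_num, hx⟩)

theorem d_zero (x : G) (hx : x 0 = 1) : d x 0 = 8 := by
  unfold d dd
  rw [if_pos le_rfl]
  have : (0 : ℤ).toNat = 0 := rfl
  rw [this, nth_zero x hx]
  unfold c
  norm_num

theorem d_one (x : G) (hx : x 0 = 1) : 64 ≤ d x 1 := by
  unfold d dd
  rw [if_pos (by norm_num)]
  have : (1 : ℤ).toNat = 1 := rfl
  rw [this]
  have h := Nat.nth_strictMono (inf_p x) (show 0 < 1 by norm_num)
  rw [nth_zero x hx] at h
  unfold c
  have h2 : (8 : ℝ) ^ (1 + 1) ≤ 8 ^ (Nat.nth (p x) 1 + 1) :=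
    pow_le_pow_right₀ (by norm_num) (by omega)
  norm_num at h2
  exact h2

theorem norm_e (n : ℤ) : ‖e n‖ = 1 := by
  unfold e
  rw [lp.norm_single (by norm_num)]
  simp

end TaskNN

open TaskNN

theorem NN : S_NN := by
  intro T hT
  set D : Set G := {x : G | x 0 = 1} with hD
  have hDm : MeasurableSet D := (measurable_pi_apply 0) (MeasurableSet.of_discrete (s := {1}))
  have hDo : IsOpen D := by
    have : D = (fun x : G => x 0) ⁻¹' {1} := rfl
    rw [this]
    exact (isOpen_discrete _).preimage (continuous_apply 0)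
  have hDpos : 0 < mu D := hDo.measure_pos mu ⟨fun _ => 1, rfl⟩
  have hDfin : mu D ≠ ∞ := measure_ne_top mu D
  set f : H := indicatorConstLp 2 hDm hDfin (e 0) with hf
  have hfx : ∀ᵐ x ∂mu, (f : G → E) x = D.indicator (fun _ => e 0) x := indicatorConstLp_coeFn
  set f1 : H := indicatorConstLp 2 hDm hDfin (((Real.exp (-8) : ℝ) : ℂ) • e 1) with hf1
  have hf1x : ∀ᵐ x ∂mu, (f1 : G → E) x =
      D.indicator (fun _ => ((Real.exp (-8) : ℝ) : ℂ) • e 1) x := indicatorConstLp_coeFn
  have hTf : T f = f1 := by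
    apply Lp.ext
    filter_upwards [hT f, hfx, hf1x] with x e1 e2 e3
    ext n
    rw [e1 n, e2, e3]
    by_cases hx : x ∈ D
    · rw [Set.indicator_of_mem hx, Set.indicator_of_mem hx, e_apply, lp.coeFn_smul, Pi.smul_apply,
        e_apply, smul_eq_mul]
      by_cases hn : n = 1
      · subst hn
        have : w (d x) (1 - 1) = Real.exp (-8) := by
          unfold w
          rw [sub_self, d_zero x hx]
        rw [this]
        simp
      · rw [if_neg (fun h => hn (by omega)), if_neg hn]
        simp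
    · rw [Set.indicator_of_notMem hx, Set.indicator_of_notMem hx]
      simp
  have hTTf : ‖T f1‖ ≤ Real.exp (-64) * ‖f1‖ := by
    apply Lp.norm_le_mul_norm_of_ae_le_mul
    filter_upwards [hT f1, hf1x] with x e1 e3
    by_cases hx : x ∈ D
    · have e4 : (T f1 : G → E) x = ((w (d x) 1 : ℝ) : ℂ) • (((Real.exp (-8) : ℝ) : ℂ) • e 2) := by
        ext n
        rw [e1 n, e3, Set.indicator_of_mem hx, lp.coeFn_smul, Pi.smul_apply, lp.coeFn_smul,
          Pi.smul_apply, lp.coeFn_smul, Pi.smul_apply, e_apply, e_apply, smul_eq_mul, smul_eq_mul,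
          smul_eq_mul]
        by_cases hn : n = 2
        · subst hn
          rw [if_pos (by norm_num), if_pos rfl]
          norm_num
        · rw [if_neg (fun h => hn (by omega)), if_neg hn]
          simp
      rw [e4, e3, Set.indicator_of_mem hx, norm_smul, norm_smul, norm_smul, norm_e, norm_e,
        Complex.norm_real, Real.norm_eq_abs]
      apply mul_le_mul_of_nonneg_right _ (by positivity)
      unfold w
      rw [abs_of_pos (Real.exp_pos _), Real.exp_le_exp]
      have := d_one x hx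
      linarith
    · have e4 : (T f1 : G → E) x = 0 := by
        ext n
        rw [e1 n, e3, Set.indicator_of_notMem hx]
        simp
      rw [e4, norm_zero]
      positivity
  have hn0 : ‖f‖ = (mu.real D) ^ (1 / (2 : ℝ≥0∞).toReal) := by
    rw [hf, norm_indicatorConstLp (by norm_num) (by norm_num), norm_e, one_mul]
  have hn1 : ‖f1‖ = Real.exp (-8) * (mu.real D) ^ (1 / (2 : ℝ≥0∞).toReal) := by
    rw [hf1, norm_indicatorConstLp (by norm_num) (by norm_num), norm_smul, norm_e, mul_one,
      Complex.norm_real, Real.norm_eq_abs, abs_of_pos (Real.exp_pos _)]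
  have hmpos : 0 < (mu.real D) ^ (1 / (2 : ℝ≥0∞).toReal) :=
    Real.rpow_pos_of_pos (ENNReal.toReal_pos hDpos.ne' hDfin) _
  refine ⟨f, ?_⟩
  rw [hTf]
  have h1 : ‖f1‖ = Real.exp (-8) * ‖f‖ := by rw [hn1, hn0]
  have hfpos : 0 < ‖f‖ := by rw [hn0]; exact hmpos
  have hf1pos : 0 < ‖f1‖ := by rw [h1]; positivity
  have h2 : ‖T f1‖ * ‖f‖ ≤ Real.exp (-64) * ‖f1‖ * ‖f‖ :=
    mul_le_mul_of_nonneg_right hTTf hfpos.le
  have h3 : Real.exp (-64) * ‖f‖ < ‖f1‖ := by
    rw [h1]
    apply mul_lt_mul_of_pos_right _ hfpos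
    rw [Real.exp_lt_exp]
    norm_num
  nlinarith

end H94T
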