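import Pool.Agent.H94R5.TA.Spec

set_option autoImplicit false
open scoped ENNReal Topology
open MeasureTheory Filter

noncomputable section
namespace H94T

theorem OP_toReal : (2 : ℝ≥0∞).toReal = 2 := by norm_num

theorem OP_sum (y : E) (s : ℤ) : Summable (fun n : ℤ => ‖y (n - s)‖ ^ (2 : ℝ≥0∞).toReal) := by
  have h := lp.memℓp y
  rw [memℓp_gen_iff (by norm_num)] at h
  exact (Equiv.subRight s).summable_iff.mpr h

theorem OP_le (s : ℤ) (b : ℤ → ℂ) (C : ℝ) (hb : ∀ n, ‖b n‖ ≤ C) (y : E) (n : ℤ) :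
    ‖b n * y (n - s)‖ ^ (2 : ℝ≥0∞).toReal ≤ C ^ (2 : ℝ≥0∞).toReal *
      ‖y (n - s)‖ ^ (2 : ℝ≥0∞).toReal := by
  have hC : 0 ≤ C := (norm_nonneg _).trans (hb 0)
  rw [norm_mul, ← Real.mul_rpow hC (norm_nonneg _)]
  exact Real.rpow_le_rpow (by positivity) (mul_le_mul_of_nonneg_right (hb n) (norm_nonneg _))
    (by norm_num)

theorem OP_mem (s : ℤ) (b : ℤ → ℂ) (C : ℝ) (hb : ∀ n, ‖b n‖ ≤ C) (y : E) :
    Memℓp (fun n : ℤ => b n * (y (n - s) : ℂ)) 2 := by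
  rw [memℓp_gen_iff (by norm_num)]
  exact Summable.of_nonneg_of_le (fun n => by positivity) (fun n => OP_le s b C hb y n)
    ((OP_sum y s).mul_left _)

/-- the pointwise operator -/
def OPpw (s : ℤ) (b : ℤ → ℂ) (C : ℝ) (hb : ∀ n, ‖b n‖ ≤ C) (y : E) : E :=
  ⟨fun n : ℤ => b n * (y (n - s) : ℂ), OP_mem s b C hb y⟩

theorem OPpw_apply (s : ℤ) (b : ℤ → ℂ) (C : ℝ) (hb : ∀ n, ‖b n‖ ≤ C) (y : E) (n : ℤ) :
    (OPpw s b C hb y) n = b n * y (n - s) := rfl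

theorem OPpw_norm (s : ℤ) (b : ℤ → ℂ) (C : ℝ) (hb : ∀ n, ‖b n‖ ≤ C) (y : E) :
    ‖OPpw s b C hb y‖ ≤ C * ‖y‖ := by
  have hC : 0 ≤ C := (norm_nonneg _).trans (hb 0)
  apply lp.norm_le_of_tsum_le (by norm_num) (by positivity)
  rw [Real.mul_rpow hC (norm_nonneg _), lp.norm_rpow_eq_tsum (by norm_num) y,
    ← (Equiv.subRight s).tsum_eq (fun n => ‖y n‖ ^ (2 : ℝ≥0∞).toReal), ← tsum_mul_left]
  have h1 := (OP_sum y s).mul_left (C ^ (2 : ℝ≥0∞).toReal)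
  refine Summable.tsum_le_tsum (fun n => ?_) ?_ h1
  · exact OP_le s b C hb y n
  · exact Summable.of_nonneg_of_le (fun n => by positivity) (fun n => OP_le s b C hb y n) h1

theorem OPpw_add (s : ℤ) (b : ℤ → ℂ) (C : ℝ) (hb : ∀ n, ‖b n‖ ≤ C) (y z : E) :
    OPpw s b C hb (y + z) = OPpw s b C hb y + OPpw s b C hb z := by
  ext n
  rw [lp.coeFn_add, Pi.add_apply, OPpw_apply, OPpw_apply, OPpw_apply, lp.coeFn_add,
    Pi.add_apply]
  ring

theorem OPpw_smul (s : ℤ) (b : ℤ → ℂ) (C : ℝ) (hb : ∀ n, ‖b n‖ ≤ C) (r : ℂ) (y : E) :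
    OPpw s b C hb (r • y) = r • OPpw s b C hb y := by
  ext n
  rw [lp.coeFn_smul, Pi.smul_apply, OPpw_apply, OPpw_apply, lp.coeFn_smul,
    Pi.smul_apply, smul_eq_mul, smul_eq_mul]
  ring

theorem OP_aesm (s : ℤ) (a : G → ℤ → ℂ) (C : ℝ) (ha : ∀ n, Measurable fun x => a x n)
    (hb : ∀ x n, ‖a x n‖ ≤ C) (F : G → E) (hF : AEStronglyMeasurable F mu) :
    AEStronglyMeasurable (fun x => OPpw s (a x) C (hb x) (F x)) mu := by
  have hco : ∀ n : ℤ, AEStronglyMeasurable (fun x => a x n * (F x) (n - s)) mu := by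
    intro n
    apply AEStronglyMeasurable.mul (ha n).aestronglyMeasurable
    have hc : Continuous (fun y : E => (y (n - s) : ℂ)) :=
      (lp.evalCLM ℂ (fun _ : ℤ => ℂ) 2 (n - s)).continuous
    exact hc.comp_aestronglyMeasurable hF
  have hsum : ∀ S : Finset ℤ, AEStronglyMeasurable
      (fun x => ∑ n ∈ S, (a x n * (F x) (n - s)) • e n) mu := by
    intro S
    apply Finset.aestronglyMeasurable_fun_sum
    intro n _
    exact (hco n).smul_const (e n)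
  apply aestronglyMeasurable_of_tendsto_ae (atTop : Filter (Finset ℤ)) hsum
  refine ae_of_all _ (fun x => ?_)
  have h := lp.hasSum_single (E := fun _ : ℤ => ℂ) (p := 2) (by norm_num)
    (OPpw s (a x) C (hb x) (F x))
  have e1 : (fun n : ℤ => lp.single 2 n ((OPpw s (a x) C (hb x) (F x)) n : ℂ)) =
      fun n => (a x n * (F x) (n - s)) • e n := by
    funext n
    rw [OPpw_apply]
    unfold e
    rw [← lp.single_smul, smul_eq_mul, mul_one]
  rw [e1] at h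
  exact h

theorem OP_memLp (s : ℤ) (a : G → ℤ → ℂ) (C : ℝ) (ha : ∀ n, Measurable fun x => a x n)
    (hb : ∀ x n, ‖a x n‖ ≤ C) (u : H) :
    MemLp (fun x => OPpw s (a x) C (hb x) ((u : G → E) x)) 2 mu :=
  (Lp.memLp u).of_le_mul (OP_aesm s a C ha hb _ (Lp.aestronglyMeasurable u))
    (ae_of_all _ (fun x => OPpw_norm s (a x) C (hb x) _))

/-- the multiplication and shift operator -/
def OPlin (s : ℤ) (a : G → ℤ → ℂ) (C : ℝ) (ha : ∀ n, Measurable fun x => a x n)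
    (hb : ∀ x n, ‖a x n‖ ≤ C) : H →ₗ[ℂ] H where
  toFun u := (OP_memLp s a C ha hb u).toLp _
  map_add' u v := by
    rw [← MemLp.toLp_add]
    rw [MemLp.toLp_eq_toLp_iff]
    filter_upwards [Lp.coeFn_add u v] with x hx
    rw [hx, Pi.add_apply, OPpw_add, Pi.add_apply]
  map_smul' r u := by
    rw [RingHom.id_apply, ← MemLp.toLp_const_smul]
    rw [MemLp.toLp_eq_toLp_iff]
    filter_upwards [Lp.coeFn_smul r u] with x hx
    rw [hx, Pi.smul_apply, OPpw_smul, Pi.smul_apply]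

theorem OPlin_coe (s : ℤ) (a : G → ℤ → ℂ) (C : ℝ) (ha : ∀ n, Measurable fun x => a x n)
    (hb : ∀ x n, ‖a x n‖ ≤ C) (u : H) :
    (OPlin s a C ha hb u : G → E) =ᵐ[mu] fun x => OPpw s (a x) C (hb x) ((u : G → E) x) :=
  MemLp.coeFn_toLp (OP_memLp s a C ha hb u)

theorem OP : S_OP := by
  intro s a C ha hb φ hφ
  let L : H →L[ℂ] H := (OPlin s a C ha hb).mkContinuous C (by
    intro u
    apply Lp.norm_le_mul_norm_of_ae_le_mul
    filter_upwards [OPlin_coe s a C ha hb u] with x hx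
    rw [hx]
    exact OPpw_norm s (a x) C (hb x) _)
  let Φ : H →L[ℂ] H := (Lp.compMeasurePreservingₗᵢ ℂ φ hφ).toContinuousLinearMap
  refine ⟨L.comp Φ, ?_⟩
  intro f
  have h1 : ((L.comp Φ) f : G → E) =ᵐ[mu]
      fun x => OPpw s (a x) C (hb x) ((Φ f : G → E) x) := OPlin_coe s a C ha hb (Φ f)
  have h2 : (Φ f : G → E) =ᵐ[mu] (f : G → E) ∘ φ := Lp.coeFn_compMeasurePreserving f hφ
  filter_upwards [h1, h2] with x hx1 hx2
  intro n
  rw [hx1, OPpw_apply, hx2]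
  rfl

end H94T
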