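import Pool.Agent.H94R5.TA.Defs

set_option autoImplicit false
open scoped ENNReal Topology
open MeasureTheory Filter

noncomputable section
namespace H94T

/-! ### A. the group `(ℤ/2)^ℕ` -/

def S_GRP1 : Prop := ∀ j, MeasurePreserving (g j) mu mu

def S_GRP2 : Prop := ∀ D : Set G, MeasurableSet D →
  Tendsto (fun j => mu (D ∩ (g j) ⁻¹' D)) atTop (𝓝 (mu D))

def S_GRP3 : Prop := ∀ D : Set G, MeasurableSet D → (∀ j, (g j) ⁻¹' D =ᵐ[mu] D) →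
  mu D = 0 ∨ mu Dᶜ = 0

/-! ### B. weighted composition operators on `H` -/

def S_OP : Prop := ∀ (s : ℤ) (a : G → ℤ → ℂ) (C : ℝ), (∀ n, Measurable fun x => a x n) →
  (∀ x n, ‖a x n‖ ≤ C) → ∀ φ : G → G, MeasurePreserving φ mu mu →
  ∃ A : H →L[ℂ] H, ∀ f : H, ∀ᵐ x ∂mu, ∀ n : ℤ,
    ((A f : G → E) x) n = a x n * ((f : G → E) (φ x)) (n - s)

/-! ### C. fibres of a closed subspace of `H` -/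

def S_FIB0 : Prop := ∀ V : Submodule ℂ H, ∃ v : ℕ → H, (∀ k, v k ∈ V) ∧
  (V : Set H) ⊆ closure (Set.range v)

def S_FIB1 : Prop := ∀ (v : ℕ → H) (u : H), u ∈ closure (Set.range v) →
  ∀ᵐ x ∂mu, (u : G → E) x ∈ closure (Set.range fun k => (v k : G → E) x)

def S_FIB2 : Prop := ∀ (V : Submodule ℂ H) (v : ℕ → H), (∀ k, v k ∈ V) →
  (V : Set H) ⊆ closure (Set.range v) →
  ∃ F : G → Submodule ℂ E, (∀ x, IsClosed (F x : Set E)) ∧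
    ∀ᵐ x ∂mu, (F x : Set E) = closure (Set.range fun k => (v k : G → E) x)

def S_FIB3 : Prop := ∀ (V : Submodule ℂ H) (v : ℕ → H), IsClosed (V : Set H) →
  (∀ k, v k ∈ V) → (V : Set H) ⊆ closure (Set.range v) →
  (∀ f ∈ V, ∀ D : Set G, MeasurableSet D → ∀ h : H,
    (∀ᵐ x ∂mu, (h : G → E) x = D.indicator (f : G → E) x) → h ∈ V) →
  (∀ᵐ x ∂mu, closure (Set.range fun k => (v k : G → E) x) = Set.univ) → V = ⊤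

def S_FIB4 : Prop := ∀ (V : Submodule ℂ H) (v : ℕ → H), (∀ k, v k ∈ V) →
  (V : Set H) ⊆ closure (Set.range v) →
  ∀ (s : ℤ) (a : G → ℤ → ℂ) (C : ℝ) (φ : G → G) (A : H →L[ℂ] H),
  (∀ x n, ‖a x n‖ ≤ C) → MeasurePreserving φ mu mu →
  (∀ f : H, ∀ᵐ x ∂mu, ∀ n : ℤ, ((A f : G → E) x) n = a x n * ((f : G → E) (φ x)) (n - s)) →
  (∀ f ∈ V, A f ∈ V) →
  ∀ᵐ x ∂mu, ∀ y y' : E, y ∈ closure (Set.range fun k => (v k : G → E) (φ x)) →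
    (∀ n : ℤ, y' n = a x n * y (n - s)) → y' ∈ closure (Set.range fun k => (v k : G → E) x)

def S_FIB5 : Prop := ∀ (v : ℕ → H) (a : E),
  NullMeasurableSet {x | a ∈ closure (Set.range fun k => (v k : G → E) x)} mu

/-! ### D. the columns -/

def S_COL1 : Prop := ∀ x : G, Steep (d x)

def S_COL2 : Prop := ∀ (P P' : ℕ → Prop) (i₀ : ℕ), (setOf P').Infinite → {i | ¬ P i}.Infinite →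
  P i₀ → (∀ i, P' i ↔ (P i ∧ i ≠ i₀)) →
  ∀ n : ℤ, min (dd P n) (c i₀) - dd P n = min (dd P (n - 1)) (c i₀) - dd P' (n - 1)

def S_COL3 : Prop := ∀ n : ℤ, Measurable fun x : G => d x n

/-! ### E. one column: every nonzero closed invariant subspace contains some `e l` -/

def S_F1s : Prop := ∀ d, Steep d → ∀ (f : E) (n : ℤ) (r : ℝ), 0 ≤ r →
  Summable (fun m : ℕ => r ^ m * ‖coef d f n m‖)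

def S_F1 : Prop := ∀ d, Steep d → ∀ (f : E) (ζ : ℂ), ∃ y : E, Rec d f ζ y ∧
  (∀ n, HasSum (fun m : ℕ => ζ ^ m * coef d f n m) (y n)) ∧
  (∀ W : Submodule ℂ E, IsClosed (W : Set E) → Inv d W → f ∈ W → y ∈ W)

def S_F2 : Prop := ∀ (a : ℕ → ℂ) (r : ℝ), 0 ≤ r → Summable (fun m => r ^ m * ‖a m‖) →
  ∀ m₀ : ℕ, ∃ ζ : ℂ, ‖ζ‖ = r ∧ ∀ S : ℂ, HasSum (fun m => ζ ^ m * a m) S →
    r ^ m₀ * ‖a m₀‖ ≤ 2 * ‖S‖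

def S_F3R : Prop := ∀ (d : ℤ → ℝ) (f : E) (ζ : ℂ) (y : E) (k : ℤ) (η : ℝ), Rec d f ζ y →
  0 ≤ η → η ≤ 1 / 2 → (∀ n, k ≤ n → ‖ζ‖ * w d n ≤ η) →
  ‖res {n | k < n} y‖ ≤ 2 * (η * ‖y k‖ + ‖f‖)

def S_F3M : Prop := ∀ (d : ℤ → ℝ) (f : E) (ζ : ℂ) (y : E) (a k : ℤ) (L : ℝ), Rec d f ζ y →
  2 ≤ L → (∀ n, a ≤ n → n < k → L ≤ ‖ζ‖ * w d n) →
  ‖res {n | a ≤ n ∧ n < k} y‖ ≤ 2 / L * (‖y k‖ + ‖f‖)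

def S_F3L : Prop := ∀ (d : ℤ → ℝ) (f : E) (ζ : ℂ) (y : E) (b : ℤ), Rec d f ζ y →
  (∀ n, n < b → ‖ζ‖ * w d n ≤ 1 / 2) → ‖res {n | n ≤ b} y‖ ≤ 2 * ‖f‖

def S_F3G : Prop := ∀ (d : ℤ → ℝ) (f : E) (ζ : ℂ) (y : E) (b : ℤ) (t : ℝ) (j : ℕ), 0 ≤ t →
  Rec d f ζ y → ‖y b‖ ≤ 2 * ‖f‖ → (∀ n, b ≤ n → n < b + j → ‖ζ‖ * w d n ≤ Real.exp t) →
  ‖y (b + j)‖ ≤ (j + 2) * Real.exp (j * t) * ‖f‖

def S_F3B : Prop := ∀ d, Steep d → ∀ (f : E) (q : ℤ), f q ≠ 0 → ∃ C : ℝ, 0 < C ∧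
  ∀ k : ℕ, q ≤ k → C * Real.exp (((k : ℝ) - |(q : ℝ)| - 1) * (d k / 2)) ≤
    (Real.exp (d k / 2)) ^ (((k : ℤ) - q).toNat) * ‖coef d f k (((k : ℤ) - q).toNat)‖

def S_F3E : Prop := ∀ d, Steep d → ∀ W : Submodule ℂ E, IsClosed (W : Set E) → Inv d W →
  W ≠ ⊥ → ∃ C : ℝ, ∃ K : ℕ, ∀ k : ℕ, K ≤ k → ∃ u ∈ W,
    ‖e k - u‖ ≤ C * ((k : ℝ) + 1) ^ 2 * Real.exp (-(d k) / 8)

def S_F3D : Prop := ∀ d, Steep d → ∀ C : ℝ, ∃ K : ℕ, ∀ k : ℕ, K ≤ k →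
  C * ((k : ℝ) + 1) ^ 2 * Real.exp (-(d k) / 8) ≤ (1 / 2) ^ (k + 2)

def S_F4 : Prop := ∀ (W : Submodule ℂ E), IsClosed (W : Set E) → ∀ K : ℕ,
  (∀ k : ℕ, K ≤ k → ∃ u ∈ W, ‖e k - u‖ ≤ (1 / 2) ^ (k + 2)) →
  ∃ v ∈ W, v K = 1 ∧ ∀ n : ℤ, (K : ℤ) < n → v n = 0

def S_F5 : Prop := ∀ (a : ℕ → ℝ), (∀ j, 0 ≤ a j) → a 0 = 1 → ∀ (n₀ J : ℕ),
  (∀ j, J < j → a j * ((64 : ℝ) ^ (n₀ + J + 1)) ^ j < 1) →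
  ∃ n, n₀ ≤ n ∧ n ≤ n₀ + J ∧ ∃ j₀, j₀ ≤ J ∧ ∀ j, a j * (8 * (64 : ℝ) ^ n) ^ j ≤
    a j₀ * (8 * (64 : ℝ) ^ n) ^ j₀ * (1 / 8) ^ (((j : ℤ) - j₀).natAbs)

def S_F5b : Prop := ∀ (a : ℕ → ℂ) (ζ : ℂ) (j₀ : ℕ),
  (∀ j, ‖a j‖ * ‖ζ‖ ^ j ≤ ‖a j₀‖ * ‖ζ‖ ^ j₀ * (1 / 8) ^ (((j : ℤ) - j₀).natAbs)) →
  ∀ S : ℂ, HasSum (fun j => ζ ^ j * a j) S → ‖a j₀‖ * ‖ζ‖ ^ j₀ ≤ 2 * ‖S‖

def S_F5c : Prop := ∀ d, Steep d → ∀ (K : ℕ) (v : E), v K = 1 → (∃ n : ℤ, n < K ∧ v n ≠ 0) →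
  ∀ (M : ℝ) (m₀ : ℕ), ∃ m : ℕ, m₀ ≤ m ∧ ∃ r : ℝ, Real.exp (2 * d (-(m : ℤ))) ≤ r ∧
    r ≤ Real.exp (d (-1 - (m : ℤ)) / 2) ∧ ∀ ζ : ℂ, ‖ζ‖ = r → ∀ S : ℂ,
      HasSum (fun j : ℕ => ζ ^ j * coef d v K j) S → M ≤ ‖S‖

def S_F6A : Prop := ∀ (d : ℤ → ℝ) (v : E) (K : ℤ), v K = 1 → (∀ n : ℤ, K < n → v n = 0) →
  ∀ (r B : ℝ) (y : ℂ → E), 0 < r →
  (∀ ζ : ℂ, ‖ζ‖ = r → Rec d v ζ (y ζ) ∧ y ζ K ≠ 0 ∧ ‖res {n | n < K} (y ζ)‖ ≤ B * ‖y ζ K‖) →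
  ∀ W : Submodule ℂ E, (∀ ζ : ℂ, ‖ζ‖ = r → y ζ ∈ W) →
  ∀ ε : ℝ, 0 < ε → ∃ u ∈ W, ‖u - e K‖ ≤ B + ε

def S_F6 : Prop := ∀ d, Steep d → ∀ W : Submodule ℂ E, IsClosed (W : Set E) → Inv d W →
  ∀ (K : ℕ) (v : E), v ∈ W → v K = 1 → (∀ n : ℤ, (K : ℤ) < n → v n = 0) → e K ∈ W

def S_FT : Prop := ∀ d, Steep d → ∀ W : Submodule ℂ E, IsClosed (W : Set E) → Inv d W →
  W ≠ ⊥ → ∃ l : ℤ, e l ∈ W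

/-! ### F. assembly -/

def S_A1 : Prop := ∃ T : H →L[ℂ] H,
  (∀ f : H, ∀ᵐ x ∂mu, ∀ n : ℤ,
    ((T f : G → E) x) n = (w (d x) (n - 1) : ℂ) * ((f : G → E) x) (n - 1)) ∧
  (∀ D : Set G, MeasurableSet D → ∃ A : H →L[ℂ] H, A.comp T = T.comp A ∧
    ∀ f : H, ∀ᵐ x ∂mu, (A f : G → E) x = D.indicator (f : G → E) x) ∧
  (∀ j : ℕ, ∃ A : H →L[ℂ] H, A.comp T = T.comp A ∧ ∀ f : H, ∀ᵐ x ∂mu, ∀ n : ℤ,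
    ((A f : G → E) x) n =
      (if x j = 0 then (Real.exp (min (d (g j x) n) (c (5 * j))) : ℂ) else 0) *
        ((f : G → E) (g j x)) (n + 1)) ∧
  (∀ j : ℕ, ∃ A : H →L[ℂ] H, A.comp T = T.comp A ∧ ∀ f : H, ∀ᵐ x ∂mu, ∀ n : ℤ,
    ((A f : G → E) x) n =
      (if x j = 1 then (Real.exp (-(min (d x (n - 1)) (c (5 * j)))) : ℂ) else 0) *
        ((f : G → E) (g j x)) (n - 1))

def S_NN : Prop := ∀ T : H →L[ℂ] H, (∀ f : H, ∀ᵐ x ∂mu, ∀ n : ℤ,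
    ((T f : G → E) x) n = (w (d x) (n - 1) : ℂ) * ((f : G → E) x) (n - 1)) →
  ∃ f : H, ‖T (T f)‖ * ‖f‖ < ‖T f‖ ^ 2

def S_A3 : Prop := ∀ (A : ℤ → Set G), (∀ l, NullMeasurableSet (A l) mu) →
  (∀ l, ∀ᵐ x ∂mu, x ∈ A l → x ∈ A (l + 1)) →
  (∀ (j : ℕ) (l : ℤ), ∀ᵐ x ∂mu, x j = 0 → g j x ∈ A l → x ∈ A (l - 1)) →
  (∀ (j : ℕ) (l : ℤ), ∀ᵐ x ∂mu, x j = 1 → g j x ∈ A l → x ∈ A (l + 1)) →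
  (∀ᵐ x ∂mu, ∀ l, x ∉ A l) ∨ (∀ᵐ x ∂mu, ∀ l, x ∈ A l)

def S_MAIN : Prop := ∃ T : H →L[ℂ] H,
  (∀ V : Submodule ℂ H, IsClosed (V : Set H) →
    (∀ A : H →L[ℂ] H, A.comp T = T.comp A → ∀ x ∈ V, A x ∈ V) → V = ⊥ ∨ V = ⊤) ∧
  ∃ f : H, ‖T (T f)‖ * ‖f‖ < ‖T f‖ ^ 2

/-- the frozen statement `S03264` (negative answer to the reductive algebra problem) -/
def S_FIN : Prop :=
    ¬ (∀ (H : Type) [NormedAddCommGroup H] [InnerProductSpace ℂ H] [CompleteSpace H]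
      (B : Subalgebra ℂ (H →L[ℂ] H)),
      (∀ T : H →L[ℂ] H,
        (∀ (F : Finset (H × H)) (ε : ℝ), 0 < ε →
          ∃ S ∈ B, ∀ p ∈ F, ‖inner ℂ ((T - S) p.1) p.2‖ < ε) → T ∈ B) →
      (∀ M : Submodule ℂ H, IsClosed (M : Set H) →
        (∀ A ∈ B, ∀ x ∈ M, A x ∈ M) →
        (∀ A ∈ B, ∀ x ∈ Submodule.orthogonal M, A x ∈ Submodule.orthogonal M)) →
      ∀ A ∈ B, ContinuousLinearMap.adjoint A ∈ B)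

end H94T
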